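import Pool.Agent.H35.Q75.G3

/-!
The lattice of endomorphisms.
-/

set_option autoImplicit false
set_option linter.unusedSectionVars false
set_option linter.unusedSimpArgs false
set_option linter.unusedVariables false

namespace Pool.Agent.H35.Q75

open WeierstrassCurve Polynomial
open Pool.Agent.H475R2 (EW Rep XR Om Dn dsc fx dfx eq_of_nonsing nonsing_iff add_ne neg_some'
  coprime_X_sub_C exists_ff dn_of zsmul_pm order3' nf nf_pos ell_concl)
open Pool.Agent.H35.Q51 (om_of_x phi3 cop_of fz fh)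

section poly

variable {R : Type*} [CommRing R] {w t u : R}

theorem cop21 (hw : 5 * w ^ 2 = 1) (ht : t ^ 2 = -3) (hu : 144 * u = 1) :
    IsCoprime (C ((36 * u) ^ 3 * w ^ 14) * PX (5 * w) t lN21)
      (C (-108 * u * w ^ 12) * (PX (5 * w) t lN7 ^ 2 * PX (5 * w) t lK7 ^ 2)) := by
  have uw : IsUnit w := IsUnit.of_mul_eq_one (5 * w) (by linear_combination hw)
  have u5 : IsUnit (5 : R) := IsUnit.of_mul_eq_one (w ^ 2) hw
  have u36 : IsUnit (36 * u) := IsUnit.of_mul_eq_one 4 (by linear_combination hu)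
  have u108 : IsUnit (-108 * u) := IsUnit.of_mul_eq_one (-(192 * u)) (by
    linear_combination (144 * u + 1) * hu)
  have u4 : IsUnit (4 : R) := IsUnit.of_mul_eq_one (36 * u) (by linear_combination hu)
  have e := evN21 (hwC hw) (htC ht) (X : R[X])
  rw [← C5w] at e
  have e' : PX (5 * w) t lN21 = 320 * PX (5 * w) t lN7 ^ 3 +
    3840 * PX (5 * w) t lN7 ^ 2 * PX (5 * w) t lK7 ^ 2 +
    480 * (16 - 36 * C w) * PX (5 * w) t lN7 * PX (5 * w) t lK7 ^ 4 +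
      20 * (16 - 36 * C w) ^ 2 * PX (5 * w) t lK7 ^ 6 := e
  have c7 := cop7 hw ht hu
  refine (isCoprime_mul_unit_left_left (isUnit_C.2 ((u36.pow 3).mul (uw.pow 14))) _ _).2 ?_
  refine (isCoprime_mul_unit_left_right (isUnit_C.2 (u108.mul (uw.pow 12))) _ _).2 ?_
  refine IsCoprime.mul_right (IsCoprime.pow_right ?_) (IsCoprime.pow_right ?_)
  · have h1 : IsCoprime (20 * (16 - 36 * C w) ^ 2 * PX (5 * w) t lK7 ^ 6) (PX (5 * w) t lN7) := by
      have hu4 : IsUnit (20 * (16 - 36 * C w) ^ 2 : R[X]) := by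
        have e1 : (20 * (16 - 36 * C w) ^ 2 : R[X]) = C (4 * 5 * (16 - 36 * w) ^ 2) := by
          simp only [C_mul, C_pow, C_sub, map_ofNat]; norm_num
        rw [e1]
        apply isUnit_C.2
        have e16 : (16 - 36 * w) * (16 + 36 * w) = -16 * w ^ 2 := by linear_combination (-256 : R) * hw
        have u16 : IsUnit (-16 * w ^ 2 : R) :=
          (IsUnit.of_mul_eq_one (-(9 * u)) (by linear_combination hu)).mul (uw.pow 2)
        rw [← e16] at u16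
        exact (u4.mul u5).mul ((isUnit_of_mul_isUnit_left u16).pow 2)
      exact (isCoprime_mul_unit_left_left hu4 _ _).2 (c7.symm.pow_left)
    have h2 := h1.add_mul_left_left (320 * PX (5 * w) t lN7 ^ 2 +
      3840 * PX (5 * w) t lN7 * PX (5 * w) t lK7 ^ 2 +
      480 * (16 - 36 * C w) * PX (5 * w) t lK7 ^ 4)
    have e2 : PX (5 * w) t lN21 = 20 * (16 - 36 * C w) ^ 2 * PX (5 * w) t lK7 ^ 6 +
        PX (5 * w) t lN7 * (320 * PX (5 * w) t lN7 ^ 2 +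
      3840 * PX (5 * w) t lN7 * PX (5 * w) t lK7 ^ 2 +
      480 * (16 - 36 * C w) * PX (5 * w) t lK7 ^ 4) := by rw [e']; ring
    rw [e2]; exact h2
  · have h1 : IsCoprime (320 * PX (5 * w) t lN7 ^ 3) (PX (5 * w) t lK7) := by
      have hu4 : IsUnit (320 : R[X]) := by
        have e1 : (320 : R[X]) = C (4 ^ 3 * 5) := by
          simp only [C_mul, C_pow, map_ofNat]; norm_num
        rw [e1]
        exact isUnit_C.2 ((u4.pow 3).mul u5)
      exact (isCoprime_mul_unit_left_left hu4 _ _).2 (c7.pow_left)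
    have h2 := h1.add_mul_left_left (3840 * PX (5 * w) t lN7 ^ 2 * PX (5 * w) t lK7 +
      480 * (16 - 36 * C w) * PX (5 * w) t lN7 * PX (5 * w) t lK7 ^ 3 +
      20 * (16 - 36 * C w) ^ 2 * PX (5 * w) t lK7 ^ 5)
    have e2 : PX (5 * w) t lN21 = 320 * PX (5 * w) t lN7 ^ 3 + PX (5 * w) t lK7 *
        (3840 * PX (5 * w) t lN7 ^ 2 * PX (5 * w) t lK7 +
      480 * (16 - 36 * C w) * PX (5 * w) t lN7 * PX (5 * w) t lK7 ^ 3 +
      20 * (16 - 36 * C w) ^ 2 * PX (5 * w) t lK7 ^ 5) := by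
      rw [e']; ring
    rw [e2]; exact h2

end poly

section points

variable {R : Type*} [CommRing R] [IsDomain R] [CharZero R] {w t u : R}
variable {L : Type*} [Field L] [DecidableEq L] {ι : R[X] →+* L}

theorem rep21 (hι : Function.Injective ι) (hw : 5 * w ^ 2 = 1) (ht : t ^ 2 = -3) (hu : 144 * u = 1)
    {A B G x' y' : L} {h' : (EW A B G).Nonsingular x' y'}
    (hx : 240 * evL (5 * ι (C w)) (ι (C t)) (ι X) lN7 ^ 2 *
      evL (5 * ι (C w)) (ι (C t)) (ι X) lK7 ^ 2 * x' = -evL (5 * ι (C w)) (ι (C t)) (ι X) lN21) :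
    Rep ι (Affine.Point.some x' y' h' : (EW A B G).Point) 0 21 := by
  have hU := ιu (ι := ι) hu
  have hW := ιw (ι := ι) hw
  have hd : (C ((36 * u) ^ 3 * w ^ 14) * PX (5 * w) t lN21).natDegree ≤ 21 :=
    (natDegree_C_mul_le _ _).trans (PX_natDegree _ t _ (by decide))
  have h514 : (5 * w ^ 2) ^ 7 = 1 := by rw [hw, one_pow]
  have hc : (C ((36 * u) ^ 3 * w ^ 14) * PX (5 * w) t lN21).coeff 21 = 1 := by
    rw [coeff_C_mul, PX_coeff, show lN21.getD 21 ⟨0, 0, 0, 0⟩ = ⟨5000000, 0, 0, 0⟩ from rfl]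
    unfold Z4.ev
    push_cast
    have h3 : (144 * u) ^ 3 = 1 := by rw [hu, one_pow]
    linear_combination (5 * w ^ 2) ^ 7 * h3 + h514
  refine ⟨C ((36 * u) ^ 3 * w ^ 14) * PX (5 * w) t lN21,
    C (-108 * u * w ^ 12) * (PX (5 * w) t lN7 ^ 2 * PX (5 * w) t lK7 ^ 2),
    monic_of_natDegree_le_of_coeff_eq_one 21 hd hc,
    natDegree_eq_of_le_of_coeff_ne_zero hd (by rw [hc]; exact one_ne_zero), ?_, cop21 hw ht hu, ?_, ?_⟩
  · refine lt_of_le_of_lt (natDegree_C_mul_le _ _) (lt_of_le_of_lt natDegree_mul_le ?_)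
    have h1 : (PX (5 * w) t lN7 ^ 2).natDegree ≤ 2 * 7 :=
      natDegree_pow_le.trans (Nat.mul_le_mul_left 2 (PX_natDegree _ t _ (by decide)))
    have h2 : (PX (5 * w) t lK7 ^ 2).natDegree ≤ 2 * 3 :=
      natDegree_pow_le.trans (Nat.mul_le_mul_left 2 (PX_natDegree _ t _ (by decide)))
    omega
  · show ι (C ((36 * u) ^ 3 * w ^ 14) * PX (5 * w) t lN21) =
      x' * ι (C (-108 * u * w ^ 12) * (PX (5 * w) t lN7 ^ 2 * PX (5 * w) t lK7 ^ 2))
    simp only [map_mul, map_pow, ι_P, C_mul, C_pow, map_neg, map_ofNat, C_neg]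
    generalize evL (5 * ι (C w)) (ι (C t)) (ι X) lN7 = n at *
    generalize evL (5 * ι (C w)) (ι (C t)) (ι X) lK7 = k at *
    generalize evL (5 * ι (C w)) (ι (C t)) (ι X) lN21 = n21 at *
    have h3 : (144 * ι (C u)) ^ 2 = 1 := by rw [hU, one_pow]
    linear_combination ((36 * ι (C u)) ^ 3 * ι (C w) ^ 14) * hx -
      (108 * ι (C u) * ι (C w) ^ 12 * n ^ 2 * k ^ 2 * x') * (5 * ι (C w) ^ 2 * h3 + hW)
  · show ι (C (eval 0 (C (-108 * u * w ^ 12) * (PX (5 * w) t lN7 ^ 2 * PX (5 * w) t lK7 ^ 2)))) = 0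
    have : eval 0 (PX (5 * w) t lN7) = 0 := by
      unfold lN7; rw [PX_eval_zero]; simp [Z4.ev]
    rw [eval_mul, eval_mul, eval_pow, this]
    simp

theorem rep19 (hι : Function.Injective ι) (hw : 5 * w ^ 2 = 1) (ht : t ^ 2 = -3) (hu : 144 * u = 1)
    {A B G x' y' y0 : L} {h' : (EW A B G).Nonsingular x' y'} {h0 : (EW A B G).Nonsingular 0 y0}
    (hx : x' * evL (5 * ι (C w)) (ι (C t)) (ι X) lK19 ^ 2 =
      4 * evL (5 * ι (C w)) (ι (C t)) (ι X) lN19) :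
    Rep ι (Affine.Point.some x' y' h') (Affine.Point.some 0 y0 h0) 19 := by
  have h25 : w ^ 12 * 15625 = 1 := by
    have : (5 * w ^ 2) ^ 6 = 1 := by rw [hw, one_pow]
    linear_combination this
  have uw : IsUnit (w ^ 12) := IsUnit.of_mul_eq_one 15625 h25
  have u36 : IsUnit (36 * u * w ^ 12) := (IsUnit.of_mul_eq_one 4 (by linear_combination hu)).mul uw
  have h4 : ι (C (36 * u)) * 4 = 1 := by
    have := ιu (ι := ι) hu
    simp only [C_mul, map_mul, map_ofNat, map_one]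
    linear_combination this
  have hd : (C (w ^ 12) * PX (5 * w) t lN19).natDegree ≤ 19 :=
    (natDegree_C_mul_le _ _).trans (PX_natDegree _ t _ (by decide))
  have hc : (C (w ^ 12) * PX (5 * w) t lN19).coeff 19 = 1 := by
    rw [coeff_C_mul, PX_coeff, show lN19.getD 19 ⟨0, 0, 0, 0⟩ = ⟨15625, 0, 0, 0⟩ from rfl]
    unfold Z4.ev
    push_cast
    linear_combination h25
  refine ⟨C (w ^ 12) * PX (5 * w) t lN19, C (36 * u * w ^ 12) * PX (5 * w) t lK19 ^ 2,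
    monic_of_natDegree_le_of_coeff_eq_one 19 hd hc,
    natDegree_eq_of_le_of_coeff_ne_zero hd (by rw [hc]; exact one_ne_zero), ?_, ?_, ?_, ?_⟩
  · exact lt_of_le_of_lt (degKsq _ t _ _ (n := 9) (by decide)) (by norm_num)
  · exact (isCoprime_mul_unit_left_left (isUnit_C.2 uw) _ _).2
      ((isCoprime_mul_unit_left_right (isUnit_C.2 u36) _ _).2 ((cop19 hw ht hu).pow_right))
  · show ι (C (w ^ 12) * PX (5 * w) t lN19) = x' * ι (C (36 * u * w ^ 12) * PX (5 * w) t lK19 ^ 2)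
    rw [map_mul, map_mul, map_pow ι (PX (5 * w) t lK19) 2, ι_P, ι_P, C_mul (a := 36 * u), map_mul]
    linear_combination (-(ι (C (36 * u))) * ι (C (w ^ 12))) * hx -
      (evL (5 * ι (C w)) (ι (C t)) (ι X) lN19 * ι (C (w ^ 12))) * h4
  · show ι (C (eval 0 (C (w ^ 12) * PX (5 * w) t lN19))) = 0 * _
    have : eval 0 (PX (5 * w) t lN19) = 0 := by
      unfold lN19; rw [PX_eval_zero]; simp [Z4.ev]
    rw [eval_mul, this, mul_zero, map_zero, map_zero, zero_mul]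

end points

theorem sigma_eq {R : Type*} [CommRing R] {t u : R} (ht : t ^ 2 = -3) (hu : 144 * u = 1) :
    ((3 + 5 * t) * (72 * u)) ^ 2 - 3 * ((3 + 5 * t) * (72 * u)) + 21 = 0 := by
  linear_combination (25 * (72 * u) ^ 2) * ht + ((-33 + 15 * t) * (72 * u) - 21) * hu

universe w1

variable {R : Type w1} [CommRing R] [IsDomain R] [CharZero R] {w t u : R}

theorem end_lattice (hw : 5 * w ^ 2 = 1) (ht : t ^ 2 = -3) (hu : 144 * u = 1) (i j : ℤ)
    (hij : i ≠ 0 ∨ j ≠ 0) :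
    ∃ N D : R[X], N.Monic ∧ N.natDegree = (nf 3 21 i j).toNat ∧
      D.natDegree < (nf 3 21 i j).toNat ∧ IsCoprime N D ∧
      fz (16 + 36 * w) * (derivative N * D - N * derivative D) ^ 2 =
        C (i + j * ((3 + 5 * t) * (72 * u))) ^ 2 * D * fh (16 + 36 * w) N D ∧
      (¬ (3 : ℤ) ∣ i → N.eval 0 = 0) := by
  classical
  obtain ⟨L, iL, ι, y, d, hι, hy, h1, h2, h3, h4⟩ := exists_ff (36 : R) (12 * (16 + 36 * w))
    ((16 + 36 * w) ^ 2)
  have h20 : (2 : L) ≠ 0 := by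
    have : ι (C (2 : R)) ≠ 0 := by
      rw [Ne, map_eq_zero_iff ι hι]
      exact C_ne_zero.2 two_ne_zero
    rwa [map_ofNat, map_ofNat] at this
  have h30 : (3 : L) ≠ 0 := by
    have : ι (C (3 : R)) ≠ 0 := by
      rw [Ne, map_eq_zero_iff ι hι]
      exact C_ne_zero.2 (by norm_num)
    rwa [map_ofNat, map_ofNat] at this
  have h50 : (5 : L) ≠ 0 := by
    have : ι (C (5 : R)) ≠ 0 := by
      rw [Ne, map_eq_zero_iff ι hι]
      exact C_ne_zero.2 (by norm_num)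
    rwa [map_ofNat, map_ofNat] at this
  have h2u : 2 * (72 * u) = 1 := by linear_combination hu
  have hs := hs5 hw
  have hy' := hy
  obtain ⟨W, hW⟩ : ∃ W : L, W = ι (C w) := ⟨_, rfl⟩
  obtain ⟨T, hT⟩ : ∃ T : L, T = ι (C t) := ⟨_, rfl⟩
  obtain ⟨z, hz⟩ : ∃ z : L, z = ι X := ⟨_, rfl⟩
  have hw' : 5 * W ^ 2 = 1 := by rw [hW]; exact ιw hw
  have ht' : T ^ 2 = -3 := by rw [hT]; exact ιt ht
  have evP : ∀ l : PL, ι (PX (5 * w) t l) = evL (5 * W) T z l := by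
    intro l; rw [ι_P, hW, hT, hz]
  have nz : ∀ {l : PL} (k : ℕ) (q' : Z4) (n : ℤ),
      Z4.isz (Z4.add (Z4.mul (l.getD k ⟨0, 0, 0, 0⟩) q') ⟨-n, 0, 0, 0⟩) = true → n ≠ 0 →
      evL (5 * W) T z l ≠ 0 := by
    intro l k q' n h hn
    rw [← evP, Ne, map_eq_zero_iff ι hι]
    exact PX_ne hs ht k q' n h hn
  have hF0 : evL (5 * W) T z lF ≠ 0 := nz 3 ⟨1, 0, 0, 0⟩ 5 (by decide +kernel) (by norm_num)
  have hyf : y ^ 2 = z ^ 3 + 36 * z ^ 2 + 12 * (16 + 36 * W) * z + (16 + 36 * W) ^ 2 := by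
    rw [hy', hz, hW]
    simp only [map_add, map_mul, map_pow, map_ofNat, C_add, C_mul, C_pow]
  have hy0 : y ≠ 0 := by
    intro h
    rw [h] at hyf
    apply hF0
    rw [evF hw', ← hyf]; ring
  have hz0 : z ≠ 0 := by rw [hz, Ne, map_eq_zero_iff ι hι]; exact X_ne_zero
  have hk0 : evL (5 * W) T z lK7 ≠ 0 := nz 3 ⟨-5, 0, -1, 0⟩ 140 (by decide +kernel) (by norm_num)
  have hm0 : evL (5 * W) T z lM7 ≠ 0 := nz 9 ⟨1, 0, 0, 0⟩ 125 (by decide +kernel) (by norm_num)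
  have hn0 : evL (5 * W) T z lN7 ≠ 0 := nz 7 ⟨1, 0, 0, 0⟩ 25 (by decide +kernel) (by norm_num)
  have hM21 : evL (5 * W) T z lM21 ≠ 0 :=
    nz 21 ⟨1, 0, 0, 0⟩ 5000000 (by decide +kernel) (by norm_num)
  have hH5 : 240 * z * evL (5 * W) T z lN7 ^ 2 * evL (5 * W) T z lK7 ^ 2 + evL (5 * W) T z lN21 ≠ 0 := by
    have h9 : evL (5 * W) T z lH5 ≠ 0 :=
      nz 21 ⟨7, 0, 3, 0⟩ 950000000 (by decide +kernel) (by norm_num)
    rwa [evH5 hw' ht'] at h9
  obtain ⟨A', hA'⟩ : ∃ A' : L, A' = ι (C (36 : R)) := ⟨_, rfl⟩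
  obtain ⟨B', hB'⟩ : ∃ B' : L, B' = ι (C (12 * (16 - 36 * w))) := ⟨_, rfl⟩
  obtain ⟨G', hG'⟩ : ∃ G' : L, G' = ι (C ((16 - 36 * w) ^ 2)) := ⟨_, rfl⟩
  have hA'e : A' = 36 := by rw [hA', map_ofNat, map_ofNat]
  have hB'e : B' = 12 * (16 - 36 * W) := by
    rw [hB', hW]; simp only [C_mul, C_sub, map_mul, map_sub, map_ofNat]
  have hG'e : G' = (16 - 36 * W) ^ 2 := by
    rw [hG', hW]; simp only [C_mul, C_sub, C_pow, map_mul, map_sub, map_ofNat, map_pow]
  have hAe : ι (C (36 : R)) = 36 := by rw [map_ofNat, map_ofNat]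
  have hBe : ι (C (12 * (16 + 36 * w))) = 12 * (16 + 36 * W) := by
    rw [hW]; simp only [C_mul, C_add, map_mul, map_add, map_ofNat]
  have hGe : ι (C ((16 + 36 * w) ^ 2)) = (16 + 36 * W) ^ 2 := by
    rw [hW]; simp only [C_mul, C_add, C_pow, map_mul, map_add, map_ofNat, map_pow]
  have hd' : Dn A' B' G' d := by rw [hA', hB', hG']; exact dn_of h1 h2 h3
  have hd : Dn (ι (C (36 : R))) (ι (C (12 * (16 + 36 * w)))) (ι (C ((16 + 36 * w) ^ 2))) d :=
    dn_of h1 h2 h3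
  have dC : ∀ r : R, d (ι (C r)) = 0 := by intro r; rw [h3]; simp
  have dP : ∀ l : PL, d (evL (5 * W) T z l) = 2 * y * evL (5 * W) T z (pder l) := by
    intro l; rw [← evP, h3, PX_der, evP]
  have hμ : 2 * ι (C ((t - 5) * (72 * u))) = T - 5 := by
    have e := congrArg (fun r => ι (C r)) (show 2 * ((t - 5) * (72 * u)) = t - 5 by
      linear_combination (t - 5) * h2u)
    simp only [C_mul (a := (2 : R)), map_mul ι, map_ofNat, C_sub, map_sub] at e
    rw [e, hT]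
  obtain ⟨x5, y5, hn5, ex5, ey5, y50, om5⟩ := psi7 (μ := ι (C ((t - 5) * (72 * u)))) h20 hw' ht' hA'e
    hB'e hG'e hyf hy0 hk0 hm0 hd' (dP _) (dP _) hμ
  have h40 : (4 : L) ≠ 0 := by
    rw [show (4 : L) = 2 * 2 by norm_num]; exact mul_ne_zero h20 h20
  have hx50 : x5 ≠ 0 := by
    rintro rfl
    rw [zero_mul] at ex5
    exact mul_ne_zero h40 hn0 ex5.symm
  have e21 : 5 * (x5 ^ 3 - 24 * (16 - 36 * W) * x5 - 8 * (16 - 36 * W) ^ 2) *
      evL (5 * W) T z lK7 ^ 6 = evL (5 * W) T z lM21 := by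
    rw [evM21 hw' ht']
    generalize evL (5 * W) T z lK7 = k at *
    generalize evL (5 * W) T z lN7 = n at *
    linear_combination (5 * ((x5 * k ^ 2) ^ 2 + (x5 * k ^ 2) * (4 * n) +
      16 * n ^ 2 - 24 * (16 - 36 * W) * k ^ 4)) * ex5
  have hm5 : x5 ^ 3 - 24 * (16 - 36 * W) * x5 - 8 * (16 - 36 * W) ^ 2 ≠ 0 := by
    intro h
    rw [h, mul_zero, zero_mul] at e21
    exact hM21 e21.symm
  obtain ⟨xφ, yφ, hnφ, exφ, eyφ, yφ0, omφ⟩ := phi3 (A' := ι (C (36 : R)))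
    (B' := ι (C (12 * (16 + 36 * w)))) (G' := ι (C ((16 + 36 * w) ^ 2)))
    (β := 16 - 36 * W) (β' := 16 + 36 * W) (t := T) h20 h30 hA'e hB'e hG'e (by ring) hAe hBe hGe ht'
    hx50 hm5 y50 hn5
  have dβ : d (16 - 36 * W) = 0 := by
    have : (16 - 36 * W : L) = ι (C (16 - 36 * w)) := by
      rw [hW]; simp only [C_mul, C_sub, map_mul, map_sub, map_ofNat]
    rw [this, dC]
  have hoφ := omφ d _ hd dβ (by rw [hT]; exact dC t) om5
  -- the two relations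
  have E1 : 240 * evL (5 * W) T z lN7 ^ 2 * evL (5 * W) T z lK7 ^ 2 * xφ = -evL (5 * W) T z lN21 := by
    rw [evN21 hw' ht']
    generalize evL (5 * W) T z lK7 = k at *
    generalize evL (5 * W) T z lN7 = n at *
    linear_combination (5 * k ^ 6) * exφ - (15 * xφ * k ^ 2 * (x5 * k ^ 2 + 4 * n)) * ex5 -
      (5 * ((x5 * k ^ 2) ^ 2 + (x5 * k ^ 2) * (4 * n) +
      16 * n ^ 2 + 48 * k ^ 2 * (x5 * k ^ 2 + 4 * n) + 24 * (16 - 36 * W) * k ^ 4)) * ex5
  have E2 : 2880 * evL (5 * W) T z lN7 ^ 3 * evL (5 * W) T z lK7 ^ 3 * yφ =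
      8 * T * y * evL (5 * W) T z lM7 * evL (5 * W) T z lM21 := by
    rw [← e21]
    generalize evL (5 * W) T z lK7 = k at *
    generalize evL (5 * W) T z lN7 = n at *
    generalize evL (5 * W) T z lM7 = m at *
    linear_combination (5 * k ^ 9) * eyφ - (45 * yφ * k ^ 3 *
      ((x5 * k ^ 2) ^ 2 + (x5 * k ^ 2) * (4 * n) + 16 * n ^ 2)) * ex5 +
        (5 * T * (x5 ^ 3 - 24 * (16 - 36 * W) * x5 - 8 * (16 - 36 * W) ^ 2) * k ^ 6) * ey5
  have hGs : (EW (ι (C (36 : R))) (ι (C (12 * (16 + 36 * w)))) (ι (C ((16 + 36 * w) ^ 2)))).Nonsingular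
      (ι X) y := by
    refine (nonsing_iff h20 _ _).2 ⟨?_, Or.inl hy0⟩
    rw [hy']
    simp only [map_add, map_mul ι, map_pow ι]
    rfl
  -- the marked point
  have e16 : (16 + 36 * w) * (16 - 36 * w) = -16 * w ^ 2 := by linear_combination (-256 : R) * hw
  have w0 : w ≠ 0 := by
    rintro rfl
    norm_num at hw
  have hβ0 : (16 + 36 * w) ≠ 0 := by
    intro h
    rw [h, zero_mul] at e16
    have : (-16 : R) * w ^ 2 ≠ 0 := mul_ne_zero (by norm_num) (pow_ne_zero 2 w0)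
    exact this e16.symm
  have hY0 : (16 + 36 * W : L) ≠ 0 := by
    have : (16 + 36 * W : L) = ι (C (16 + 36 * w)) := by
      rw [hW]; simp only [C_mul, C_add, map_mul, map_add, map_ofNat]
    rw [this, Ne, map_eq_zero_iff ι hι]
    exact C_ne_zero.2 hβ0
  have hM0 : (EW (ι (C (36 : R))) (ι (C (12 * (16 + 36 * w)))) (ι (C ((16 + 36 * w) ^ 2)))).Nonsingular
      0 (16 + 36 * W) :=
    (nonsing_iff h20 _ _).2 ⟨by unfold fx; rw [hGe]; ring, Or.inl hY0⟩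
  have hM3 := order3' (l := 6) h20 hY0 (by unfold dfx; rw [hBe]; ring) (by rw [hAe]; ring) hM0
  obtain ⟨h', en⟩ := neg_some' hnφ
  have hHo : Om d (ι (C ((3 + 5 * t) * (72 * u))))
      (Affine.Point.some xφ (-yφ) h' : (EW (ι (C (36 : R))) (ι (C (12 * (16 + 36 * w))))
        (ι (C ((16 + 36 * w) ^ 2)))).Point) := by
    have e1 := Om.neg hd hoφ
    rw [en] at e1
    have e2 : -(T * ι (C ((t - 5) * (72 * u)))) = ι (C ((3 + 5 * t) * (72 * u))) := by
      apply mul_left_cancel₀ h20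
      have e3 : 2 * ι (C ((3 + 5 * t) * (72 * u))) = 3 + 5 * T := by
        have e := congrArg (fun r => ι (C r)) (show 2 * ((3 + 5 * t) * (72 * u)) = 3 + 5 * t by
          linear_combination (3 + 5 * t) * h2u)
        simp only [C_mul (a := (2 : R)), map_mul ι, map_ofNat, C_add, map_add] at e
        rw [e, hT, C_mul, map_mul, map_ofNat, map_ofNat]
      rw [e3]
      linear_combination (-T) * hμ - ht'
    rw [e2] at e1
    exact e1
  have R21 : Rep ι (Affine.Point.some xφ (-yφ) h' : (EW (ι (C (36 : R))) (ι (C (12 * (16 + 36 * w))))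
        (ι (C ((16 + 36 * w) ^ 2)))).Point) 0 (21 : ℤ).toNat := by
    refine rep21 hι hw ht hu ?_
    rw [← hW, ← hT, ← hz]
    exact E1
  have R19 : Rep ι ((Affine.Point.some (ι X) y hGs : (EW (ι (C (36 : R))) (ι (C (12 * (16 + 36 * w))))
        (ι (C ((16 + 36 * w) ^ 2)))).Point) - Affine.Point.some xφ (-yφ) h')
      (Affine.Point.some 0 (16 + 36 * W) hM0 - 0) (nf 3 21 1 (-1)).toNat := by
    have hxne : z ≠ xφ := by
      intro hx
      apply hH5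
      rw [← hx] at E1
      linear_combination E1
    have hxne' : ι X ≠ xφ := by rw [← hz]; exact hxne
    obtain ⟨X3, Y3, l, hh3, e3, hl, hX3, -⟩ := add_ne hGs hnφ hxne'
    have e4 : (Affine.Point.some (ι X) y hGs : (EW (ι (C (36 : R))) (ι (C (12 * (16 + 36 * w))))
        (ι (C ((16 + 36 * w) ^ 2)))).Point) - Affine.Point.some xφ (-yφ) h' =
        Affine.Point.some X3 Y3 hh3 := by
      rw [← en, sub_neg_eq_add, e3]
    rw [e4, sub_zero]
    have h13 : (nf 3 21 1 (-1)).toNat = 19 := by decide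
    rw [h13]
    refine rep19 hι hw ht hu ?_
    rw [← hz] at hl hX3
    rw [← hW, ← hT, ← hz]
    have id := id5 hw' ht' z
    rw [← hyf] at id
    rw [evM21 hw' ht'] at E2
    obtain ⟨n, hn⟩ : ∃ n, n = evL (5 * W) T z lN7 := ⟨_, rfl⟩
    obtain ⟨k, hk⟩ : ∃ k, k = evL (5 * W) T z lK7 := ⟨_, rfl⟩
    obtain ⟨m, hm⟩ : ∃ m, m = evL (5 * W) T z lM7 := ⟨_, rfl⟩
    obtain ⟨n21, hn21⟩ : ∃ n21, n21 = evL (5 * W) T z lN21 := ⟨_, rfl⟩
    obtain ⟨n19, hn19⟩ : ∃ n19, n19 = evL (5 * W) T z lN19 := ⟨_, rfl⟩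
    obtain ⟨k19, hk19⟩ : ∃ k19, k19 = evL (5 * W) T z lK19 := ⟨_, rfl⟩
    rw [← hn] at E1 E2 id hn0
    rw [← hk] at E1 E2 id hk0
    rw [← hm] at E2 id
    rw [← hn21] at E1 id
    rw [← hn19] at id
    rw [← hk19] at id
    rw [← hn19, ← hk19]
    have eH : 240 * z * n ^ 2 * k ^ 2 + n21 = 240 * n ^ 2 * k ^ 2 * (z - xφ) := by
      linear_combination E1
    have eI : y * (2880 * (k ^ 3 * n ^ 3) - 8 * T * (m * (320 * n ^ 3 -
        480 * (16 - 36 * W) * n * k ^ 4 - 40 * (16 - 36 * W) ^ 2 * k ^ 6))) =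
        2880 * n ^ 3 * k ^ 3 * (y - yφ) := by
      linear_combination E2
    have q1 : 5 * y ^ 2 * ((2880 * (k ^ 3 * n ^ 3) - 8 * T * (m * (320 * n ^ 3 -
        480 * (16 - 36 * W) * n * k ^ 4 - 40 * (16 - 36 * W) ^ 2 * k ^ 6))) ^ 2 * k19 ^ 2) =
        5 * (2880 * n ^ 3 * k ^ 3 * (l * (z - xφ))) ^ 2 * k19 ^ 2 := by
      rw [hl, ← eI]; ring
    rw [q1, eH] at id
    have h1728 : (172800 : L) ≠ 0 := by
      rw [show (172800 : L) = 2 ^ 8 * 3 ^ 3 * 5 ^ 2 by norm_num]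
      exact mul_ne_zero (mul_ne_zero (pow_ne_zero _ h20) (pow_ne_zero _ h30)) (pow_ne_zero _ h50)
    have hne : 172800 * n ^ 4 * k ^ 4 * (z - xφ) ^ 2 ≠ 0 :=
      mul_ne_zero (mul_ne_zero (mul_ne_zero h1728 (pow_ne_zero _ hn0)) (pow_ne_zero _ hk0))
        (pow_ne_zero _ (sub_ne_zero.2 hxne))
    have q2 : 240 * n ^ 2 * k ^ 2 * l ^ 2 * k19 ^ 2 =
        960 * n19 * n ^ 2 * k ^ 2 + 240 * (36 + z) * n ^ 2 * k ^ 2 * k19 ^ 2 -
          n21 * k19 ^ 2 := by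
      apply mul_left_cancel₀ hne
      linear_combination id
    have h48 : 240 * n ^ 2 * k ^ 2 ≠ 0 := by
      have h48' : (240 : L) ≠ 0 := by
        rw [show (240 : L) = 2 ^ 4 * 3 * 5 by norm_num]
        exact mul_ne_zero (mul_ne_zero (pow_ne_zero _ h20) h30) h50
      exact mul_ne_zero (mul_ne_zero h48' (pow_ne_zero _ hn0)) (pow_ne_zero _ hk0)
    apply mul_left_cancel₀ h48
    rw [hX3, hAe]
    linear_combination q2 - (k19 ^ 2) * E1
  have hσ : ∀ i j : ℤ, (i ≠ 0 ∨ j ≠ 0) → (i : R) + j * ((3 + 5 * t) * (72 * u)) ≠ 0 := by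
    intro i j hij h0
    have h5 : ((nf 3 21 i j : ℤ) : R) = 0 := by
      unfold nf
      push_cast
      linear_combination ((i : R) + j * (3 - (3 + 5 * t) * (72 * u))) * h0 +
        (j ^ 2 : R) * sigma_eq ht hu
    have h6 := nf_pos (t := 3) (n := 21) (by norm_num) hij
    have h7 : nf 3 21 i j = 0 := by exact_mod_cast h5
    omega
  have hΔ : IsUnit (dsc (C 36) (C (12 * (16 + 36 * w))) (C ((16 + 36 * w) ^ 2)) : R[X]) :=
    dsc_unit hw hu
  obtain ⟨N, D, mN, dN, dD, cc, ode, x2⟩ := ell_concl hι h20 hΔ hy' h1 h2 h3 h4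
    (σ := (3 + 5 * t) * (72 * u)) (t := 3) (n := 21)
    (G0 := Affine.Point.some 0 (16 + 36 * W) hM0) (H0 := 0) hσ (by norm_num)
    hGs rfl (by show (0 : L) = 0 * 1; ring) hHo R21 R19 i j hij
  refine ⟨N, D, mN, dN, dD, cc, ode, ?_⟩
  intro h3i
  rw [smul_zero, add_zero] at x2
  have e : ι (C (N.eval 0)) = 0 := by
    rcases zsmul_pm hM3 h3i with h | h
    · rw [h] at x2
      have : ι (C (N.eval 0)) = 0 * ι (C (D.eval 0)) := x2
      rw [this, zero_mul]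
    · rw [h] at x2
      have hx' := x2.neg
      rw [neg_neg] at hx'
      have : ι (C (N.eval 0)) = 0 * ι (C (D.eval 0)) := hx'
      rw [this, zero_mul]
  rw [map_eq_zero_iff ι hι] at e
  exact C_eq_zero.1 e

end Pool.Agent.H35.Q75
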