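import Pool.Agent.H35.Q75.B1

/-!
The supercongruence when `p` is the norm of a principal ideal.
-/

set_option autoImplicit false
set_option linter.unusedSectionVars false
set_option linter.unusedSimpArgs false
set_option linter.unusedVariables false

namespace Pool.Agent.H35.Q75

open Polynomial
open Pool.Agent.H475R2 (T3 t3 u3 clausen3 isUnit_intCast twelve_inv nf nf_pos split_final)
open Pool.Agent.H35.Q51 (Red rdZ T3_of_ode sqrt_padic exists_neg3)

variable {p : ℕ} [hp : Fact p.Prime]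

/-- The square root of `1/5`. -/
theorem exists_w (hp5 : 5 < p) (hl : IsSquare ((5 : ℤ) : ZMod p)) : ∃ w : ℤ_[p], 5 * w ^ 2 = 1 := by
  have hpp := hp.out
  have hp2 : p ≠ 2 := by omega
  obtain ⟨r, hr⟩ := hl
  obtain ⟨a, ha⟩ := ZMod.intCast_surjective r
  have h5 : ¬ (p : ℤ) ∣ 5 := by
    intro hd
    have := Int.le_of_dvd (by norm_num) hd
    omega
  obtain ⟨s, hs0⟩ := sqrt_padic hp2 h5 (a := a) (by
    rw [← ZMod.intCast_zmod_eq_zero_iff_dvd]
    push_cast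
    push_cast at hr
    rw [ha, hr]; ring)
  have hs : s ^ 2 = 5 := by rw [hs0]; push_cast; rfl
  obtain ⟨v5, hv5⟩ := five_inv (p := p) hp5
  exact ⟨s * v5, by linear_combination (5 * v5 ^ 2) * hs + (5 * v5 + 1) * hv5⟩

theorem caseA (hp5 : 5 < p) (h3 : p % 3 = 1) (hl : IsSquare ((5 : ℤ) : ZMod p)) {x y : ℤ}
    (hxy : 4 * (p : ℤ) = x ^ 2 + 75 * y ^ 2) {mi : ℤ_[p]} (hmi : -8640 * mi = 1) :
    (p : ℤ_[p]) ^ 2 ∣ (∑ k ∈ Finset.range p, ((u3 k : ℤ) : ℤ_[p]) * mi ^ k) -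
      ((x ^ 2 - 2 * p : ℤ) : ℤ_[p]) := by
  have hpp := hp.out
  have hpZ : Prime (p : ℤ) := Nat.prime_iff_prime_int.1 hpp
  have hp2 : p ≠ 2 := by omega
  have hpp' := PadicInt.prime_p (p := p)
  have hp0 : (p : ℤ_[p]) ≠ 0 := hpp'.ne_zero
  obtain ⟨v, hv⟩ := twelve_inv (p := p) (by omega)
  obtain ⟨i, hi⟩ : ∃ i : ℤ, x = 2 * i + 3 * y := by
    have h1 : (x - y) % 2 = 0 := by
      have h2 : (x ^ 2 + 75 * y ^ 2) % 2 = 0 := by rw [← hxy]; omega
      rcases Int.emod_two_eq_zero_or_one x with hx | hx <;>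
        rcases Int.emod_two_eq_zero_or_one y with hy | hy <;>
        simp [pow_two, Int.add_emod, Int.mul_emod, Int.sub_emod, hx, hy] at h2 ⊢
    exact ⟨(x - 3 * y) / 2, by omega⟩
  have hn : nf 3 21 i y = p := by
    have : 4 * nf 3 21 i y = 4 * (p : ℤ) := by rw [hxy, hi]; unfold nf; ring
    linarith
  have hi3 : ¬ (3 : ℤ) ∣ i := by
    rintro ⟨k, rfl⟩
    unfold nf at hn
    have h1 : (3 : ℤ) ∣ p := ⟨3 * k ^ 2 + 3 * k * y + 7 * y ^ 2, by rw [← hn]; ring⟩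
    have h3 : 3 ∣ p := by exact_mod_cast h1
    omega
  obtain ⟨t, ht, hpt⟩ := choose_t (p := p) (a := x) (b := 5 * y) (m := 4) (by omega) h3 (by
    push_cast; rw [hxy]; ring)
  have hu : 144 * v ^ 2 = 1 := by linear_combination (12 * v + 1) * hv
  obtain ⟨w, hw⟩ := exists_w hp5 hl
  obtain ⟨σ, hσ⟩ : ∃ σ : ℤ_[p], σ = (3 + 5 * t) * (72 * v ^ 2) := ⟨_, rfl⟩
  have hσ2 := sigma_eq ht hu
  rw [← hσ] at hσ2
  have h2σ : 2 * σ = 3 + 5 * t := by rw [hσ]; linear_combination (3 + 5 * t) * hu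
  have hij : i ≠ 0 ∨ y ≠ 0 := by
    left
    rintro rfl
    exact hi3 (dvd_zero _)
  obtain ⟨N, D, mN, dN, dD, cc, ode, h0⟩ := end_lattice hw ht hu i y hij
  rw [hn] at dN dD
  simp only [Int.toNat_natCast] at dN dD
  rw [← hσ] at ode
  have hα : (p : ℤ_[p]) ∣ i + y * σ := by
    have h2 : (p : ℤ_[p]) ∣ 2 * (i + y * σ) := by
      have : 2 * (i + y * σ) = x + ((5 * y : ℤ) : ℤ_[p]) * t := by
        rw [hi]; push_cast
        linear_combination (y : ℤ_[p]) * h2σ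
      rw [this]; exact hpt
    rcases hpp'.dvd_or_dvd h2 with h | h
    · exfalso
      have u2 : IsUnit (2 : ℤ_[p]) := IsUnit.of_mul_eq_one (6 * v) (by linear_combination hv)
      exact hpp'.not_isUnit (isUnit_of_dvd_unit h u2)
    · exact h
  obtain ⟨q, hq⟩ := hα
  obtain ⟨π', hπ'⟩ : ∃ π' : ℤ_[p], π' = i + y * (3 - σ) := ⟨_, rfl⟩
  have hprod : (i + y * σ) * π' = p := by
    have h5 : ((nf 3 21 i y : ℤ) : ℤ_[p]) = p := by rw [hn]; simp
    rw [← h5, hπ']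
    unfold nf
    push_cast
    linear_combination (-(y : ℤ_[p]) ^ 2) * hσ2
  have hwπ : q * π' = 1 := by
    apply mul_left_cancel₀ hp0
    rw [mul_one, ← mul_assoc, ← hq, hprod]
  have h864 : 864 * (24 * (v ^ 2) ^ 2) = 1 := by linear_combination (144 * v ^ 2 + 1) * hu
  have e16 : (16 + 36 * w) * (16 - 36 * w) = -16 * w ^ 2 := by linear_combination (-256 : ℤ_[p]) * hw
  have uW : IsUnit w := IsUnit.of_mul_eq_one (5 * w) (by linear_combination hw)
  have u16 : IsUnit (-16 * w ^ 2 : ℤ_[p]) :=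
    (IsUnit.of_mul_eq_one (-(9 * v ^ 2)) (by linear_combination hu)).mul (uW.pow 2)
  have uw : IsUnit (24 * (v ^ 2) ^ 2) := IsUnit.of_mul_eq_one 864 (by linear_combination h864)
  have ua : IsUnit (16 + 36 * w) := by
    rw [← e16] at u16; exact isUnit_of_mul_isUnit_left u16
  obtain ⟨c, hc⟩ : ∃ c : ℤ_[p], c = (16 + 36 * w) * (24 * (v ^ 2) ^ 2) := ⟨_, rfl⟩
  have hβc : 16 + 36 * w = 864 * c := by rw [hc]; linear_combination (-(16 + 36 * w)) * h864
  have uc : IsUnit c := by rw [hc]; exact ua.mul uw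
  obtain ⟨ε, hε, hT⟩ := T3_of_ode (rdZ (p := p)) (by omega) (β := 16 + 36 * w) (β' := 16 + 36 * w)
    (c := c) (c' := c) hu hβc hβc uc uc (by show PadicInt.toZMod c = PadicInt.toZMod c ^ p; rw [ZMod.pow_card])
    hq hwπ (dsc_unit hw hu) mN dN dD cc (h0 hi3) ode
  obtain ⟨k, hk⟩ := hT
  have hεε : ε * ε = 1 := by rcases hε with h | h <;> rw [h] <;> ring
  have hT' : T3 p c = ε * π' + p ^ 2 * k := by linear_combination hk
  refine split_final (c := c) ?_ ?_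
  · have h1 := clausen_param hw h864
    rw [← hc] at h1
    linear_combination mi * h1 - (c * (1 - 27 * c)) * hmi
  · rw [hT']
    refine ⟨2 * ε * π' * k + p ^ 2 * k ^ 2 - q ^ 2, ?_⟩
    rw [hi]
    push_cast
    have hw2 : (i + y * σ) ^ 2 = p ^ 2 * q ^ 2 := by rw [hq]; ring
    have hsum : (i + y * σ) + π' = 2 * i + 3 * y := by rw [hπ']; ring
    linear_combination (π' ^ 2) * hεε + (-1 : ℤ_[p]) * hw2 - 2 * hprod +
      ((i + y * σ) + π' + (2 * i + 3 * y)) * hsum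

end Pool.Agent.H35.Q75
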