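import Pool.Agent.H35.Q75.W1

/-!
The supercongruence when `p` is the norm of a non-principal ideal.
-/

set_option autoImplicit false
set_option linter.unusedSectionVars false
set_option linter.unusedSimpArgs false
set_option linter.unusedVariables false

namespace Pool.Agent.H35.Q75

open Polynomial
open Pool.Agent.H475R2 (T3 t3 u3 clausen3 isUnit_intCast twelve_inv)
open Pool.Agent.H35.Q51 (Red nf3 nf3_pos T3_of_ode natCast_pow_p sqrt_padic exists_neg3 T3_eq')

variable {p : ℕ} [hp : Fact p.Prime]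

/-- The general non-principal case. -/
theorem caseB_gen {R : Type*} [CommRing R] [IsDomain R] [CharZero R] {K : Type*} [Field K]
    [CharP K p] (rd : Red p R K) (hp5 : 5 ≤ p) {w t u : R} (hw : 5 * w ^ 2 = 1) (ht : t ^ 2 = -3)
    (hu : 144 * u = 1) {i j : ℤ} (hn : nf3 3 3 7 i j = p) (hj : ¬ (3 : ℤ) ∣ j)
    (hα : (p : R) ∣ i * t + j * ((t - 5) * (72 * u)))
    (hfr : rd.r w ^ p = -rd.r w) :
    (p : R) ^ 2 ∣ T3 p ((16 + 36 * w) * (24 * u ^ 2)) ^ 2 - ((2 * p - 3 * (2 * i + j) ^ 2 : ℤ) : R) := by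
  have hpp := hp.out
  have hij : i ≠ 0 ∨ j ≠ 0 := by
    right
    rintro rfl
    exact hj (dvd_zero _)
  obtain ⟨N, D, mN, dN, dD, cc, ode, h0⟩ := hom_lattice hw ht hu i j hij
  rw [hn] at dN dD
  simp only [Int.toNat_natCast] at dN dD
  obtain ⟨v, hv⟩ := hα
  have hp0 : (p : R) ≠ 0 := by exact_mod_cast hp.out.ne_zero
  set α' : R := i * t + j * ((t + 5) * (72 * u)) with hα'
  have hprod : (i * t + j * ((t - 5) * (72 * u))) * α' = -p := by
    have h5 : ((nf3 3 3 7 i j : ℤ) : R) = p := by rw [hn]; simp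
    rw [← h5, hα']
    unfold nf3
    push_cast
    linear_combination ((i : R) ^ 2 + i * j * (144 * u) + j ^ 2 * (72 * u) ^ 2) * ht -
      (3 * i * j) * hu - (7 * j ^ 2 * (144 * u + 1)) * hu
  have hvα : v * (-α') = 1 := by
    apply mul_left_cancel₀ hp0
    rw [mul_one, ← mul_assoc, ← hv]
    linear_combination -hprod
  have h864 : 864 * (24 * u ^ 2) = 1 := by linear_combination (144 * u + 1) * hu
  have e16 : (16 + 36 * w) * (16 - 36 * w) = -16 * w ^ 2 := by linear_combination (-256 : R) * hw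
  have uW : IsUnit w := IsUnit.of_mul_eq_one (5 * w) (by linear_combination hw)
  have u16 : IsUnit (-16 * w ^ 2 : R) :=
    (IsUnit.of_mul_eq_one (-(9 * u)) (by linear_combination hu)).mul (uW.pow 2)
  have uw : IsUnit (24 * u ^ 2) := IsUnit.of_mul_eq_one 864 (by linear_combination h864)
  have ua : IsUnit (16 + 36 * w) := by
    rw [← e16] at u16; exact isUnit_of_mul_isUnit_left u16
  have ub : IsUnit (16 - 36 * w) := by
    rw [← e16] at u16; exact isUnit_of_mul_isUnit_right u16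
  have hΔ := dsc_unit (S := R) hw hu
  have nat36 : (36 : K) ^ p = 36 := by exact_mod_cast natCast_pow_p (p := p) (K := K) 36
  have nat16 : (16 : K) ^ p = 16 := by exact_mod_cast natCast_pow_p (p := p) (K := K) 16
  have nat24 : (24 : K) ^ p = 24 := by exact_mod_cast natCast_pow_p (p := p) (K := K) 24
  have nat144 : (144 : K) ^ p = 144 := by exact_mod_cast natCast_pow_p (p := p) (K := K) 144
  have hru : rd.r u ^ p = rd.r u := by
    have e1 := congrArg rd.r hu
    rw [map_mul, map_ofNat, map_one] at e1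
    have e2 := congrArg (fun x => x ^ p) e1
    simp only [mul_pow, one_pow, nat144] at e2
    have h144 : (144 : K) ≠ 0 := by
      intro h; rw [h, zero_mul] at e1; exact zero_ne_one e1
    apply mul_left_cancel₀ h144
    rw [e1, e2]
  obtain ⟨ε, hε, hT⟩ := T3_of_ode rd hp5 (β := 16 + 36 * w) (β' := 16 - 36 * w)
    (c := (16 + 36 * w) * (24 * u ^ 2)) (c' := (16 - 36 * w) * (24 * u ^ 2)) hu
    (by linear_combination (-(16 + 36 * w)) * h864) (by linear_combination (-(16 - 36 * w)) * h864)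
    (ua.mul uw) (ub.mul uw)
    (by
      have e1 : rd.r ((16 - 36 * w) * (24 * u ^ 2)) = (16 - 36 * rd.r w) * (24 * (rd.r u) ^ 2) := by
        simp only [map_mul, map_sub, map_pow, map_ofNat]
      have e2 : rd.r ((16 + 36 * w) * (24 * u ^ 2)) = (16 + 36 * rd.r w) * (24 * (rd.r u) ^ 2) := by
        simp only [map_mul, map_add, map_pow, map_ofNat]
      rw [e1, e2, mul_pow, add_pow_char, mul_pow 36, mul_pow 24, hfr, nat36, nat16, nat24, ← pow_mul,
        mul_comm 2 p, pow_mul, hru]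
      ring)
    hv hvα hΔ mN dN dD cc (h0 hj) ode
  obtain ⟨k, hk⟩ := hT
  have hεε : ε * ε = 1 := by rcases hε with h | h <;> rw [h] <;> ring
  have hT' : T3 p ((16 + 36 * w) * (24 * u ^ 2)) = -(ε * α') + p ^ 2 * k := by linear_combination hk
  have hsum : (i * t + j * ((t - 5) * (72 * u))) + α' = (2 * i + j) * t := by
    rw [hα']; linear_combination (j * t) * hu
  rw [hT']
  refine ⟨-2 * ε * α' * k + p ^ 2 * k ^ 2 - v ^ 2, ?_⟩
  push_cast
  have hv2 : (i * t + j * ((t - 5) * (72 * u))) ^ 2 = p ^ 2 * v ^ 2 := by rw [hv]; ring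
  linear_combination (α' ^ 2) * hεε + (-1 : R) * hv2 - 2 * hprod +
    ((i * t + j * ((t - 5) * (72 * u))) + α' + (2 * i + j) * t) * hsum + ((2 * i + j : R) ^ 2) * ht

/-- The inverse of `5`. -/
theorem five_inv (hp5 : 5 < p) : ∃ v : ℤ_[p], 5 * v = 1 := by
  have h : ¬ (p : ℤ) ∣ 5 := by
    intro hd
    have := Int.le_of_dvd (by norm_num) hd
    omega
  obtain ⟨v, hv⟩ := (isUnit_intCast h).exists_right_inv
  refine ⟨v, ?_⟩
  push_cast at hv
  exact hv

/-- The square root of `-3` for which a given factor is divisible by `p`. -/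
theorem choose_t (hp5 : 5 ≤ p) (h3 : p % 3 = 1) {a b : ℤ} {m : ℕ}
    (hab : (m : ℤ) * p = a ^ 2 + 3 * b ^ 2) :
    ∃ t : ℤ_[p], t ^ 2 = -3 ∧ (p : ℤ_[p]) ∣ a + b * t := by
  have hpp := hp.out
  have hp2 : p ≠ 2 := by omega
  have hpp' := PadicInt.prime_p (p := p)
  obtain ⟨a3, ha3⟩ := exists_neg3 hp5 h3
  obtain ⟨t, ht0⟩ := sqrt_padic hp2 (m := -3) (by
    intro hd
    have := Int.le_of_dvd (by norm_num) ((dvd_neg (a := (p : ℤ)) (b := 3)).1 hd)
    omega) ha3
  have ht : t ^ 2 = -3 := by rw [ht0]; push_cast; rfl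
  have habp : (m : ℤ_[p]) * p = a ^ 2 + 3 * b ^ 2 := by
    exact_mod_cast congrArg (fun z : ℤ => (z : ℤ_[p])) hab
  have hprod : ((a : ℤ_[p]) + b * t) * (a + b * (-t)) = p * m := by
    linear_combination (-((b : ℤ_[p]) ^ 2)) * ht - habp
  have hd : (p : ℤ_[p]) ∣ ((a : ℤ_[p]) + b * t) * (a + b * (-t)) := by
    rw [hprod]; exact dvd_mul_right _ _
  rcases hpp'.dvd_or_dvd hd with h | h
  · exact ⟨t, ht, h⟩
  · exact ⟨-t, by rw [neg_sq]; exact ht, h⟩

theorem clausen_param {R : Type*} [CommRing R] {w q : R} (hw : 5 * w ^ 2 = 1) (h864 : 864 * q = 1) :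
    -8640 * (((16 + 36 * w) * q) * (1 - 27 * ((16 + 36 * w) * q))) = 1 := by
  linear_combination (161 * 864 * q + 1 + 360 * w * 864 * q) * h864 + (60466176 * q ^ 2) * hw

theorem caseB (hp5 : 5 < p) (h3 : p % 3 = 1) (hl : legendreSym p 5 = -1) {x y : ℤ}
    (hxy : 4 * (p : ℤ) = 3 * x ^ 2 + 25 * y ^ 2) {mi : ℤ_[p]} (hmi : -8640 * mi = 1) :
    (p : ℤ_[p]) ^ 2 ∣ (∑ k ∈ Finset.range p, ((u3 k : ℤ) : ℤ_[p]) * mi ^ k) -
      ((25 * y ^ 2 - 2 * p : ℤ) : ℤ_[p]) := by
  have hpp := hp.out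
  have hpZ : Prime (p : ℤ) := Nat.prime_iff_prime_int.1 hpp
  have hp2 : p ≠ 2 := by omega
  have hn3 : ∀ r : ZMod p, r ^ 2 ≠ 5 := by
    intro r hr
    rw [legendreSym.eq_neg_one_iff] at hl
    apply hl
    refine ⟨r, ?_⟩
    push_cast
    rw [← hr]; ring
  have hF : Fact (∀ r : ZMod p, r ^ 2 ≠ 5 + 0 * r) := ⟨by
    intro r
    rw [zero_mul, add_zero]
    exact hn3 r⟩
  have hdom : IsDomain (WW p) := WW_domain hp5 hn3
  have hch : CharZero (WW p) := WW_charZero
  have hcK : CharP (KW p) p := charP_of_injective_algebraMap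
    (algebraMap (ZMod p) (KW p)).injective p
  obtain ⟨v, hv⟩ := twelve_inv (p := p) (by omega)
  obtain ⟨v5, hv5⟩ := five_inv (p := p) hp5
  -- parity
  obtain ⟨i, hi⟩ : ∃ i : ℤ, x = 2 * i + y := by
    have h1 : (x - y) % 2 = 0 := by
      have h2 : (3 * x ^ 2 + 25 * y ^ 2) % 2 = 0 := by rw [← hxy]; omega
      rcases Int.emod_two_eq_zero_or_one x with hx | hx <;>
        rcases Int.emod_two_eq_zero_or_one y with hy | hy <;>
        simp [pow_two, Int.add_emod, Int.mul_emod, Int.sub_emod, hx, hy] at h2 ⊢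
    exact ⟨(x - y) / 2, by omega⟩
  have hn : nf3 3 3 7 i y = p := by
    have : 4 * nf3 3 3 7 i y = 4 * (p : ℤ) := by rw [hxy, hi]; unfold nf3; ring
    linarith
  have hy3 : ¬ (3 : ℤ) ∣ y := by
    rintro ⟨k, rfl⟩
    have h1 : (3 : ℤ) ∣ 4 * p := ⟨x ^ 2 + 75 * k ^ 2, by rw [hxy]; ring⟩
    have h2 : (3 : ℤ) ∣ p := by omega
    have h3 : 3 ∣ p := by exact_mod_cast h2
    omega
  -- the square root of `-3`
  obtain ⟨t0, ht0, hpt⟩ := choose_t (p := p) (a := -(5 * y)) (b := x) (m := 4) (by omega) h3 (by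
    push_cast; rw [hxy]; ring)
  -- the elements of the extension
  set f : ℤ_[p] →+* WW p := algebraMap ℤ_[p] (WW p) with hf
  obtain ⟨t, ht'⟩ : ∃ t : WW p, t = f t0 := ⟨_, rfl⟩
  have ht : t ^ 2 = -3 := by rw [ht', ← map_pow, ht0, map_neg, map_ofNat]
  obtain ⟨w, hwd⟩ : ∃ w : WW p, w = ⟨0, v5⟩ := ⟨_, rfl⟩
  have hw : 5 * w ^ 2 = 1 := by
    rw [hwd, pow_two]
    ext
    · simp [QuadraticAlgebra.re_ofNat, QuadraticAlgebra.im_ofNat, QuadraticAlgebra.re_one]
      linear_combination (5 * v5 + 1) * hv5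
    · simp [QuadraticAlgebra.re_ofNat, QuadraticAlgebra.im_ofNat, QuadraticAlgebra.im_one]
  have hu0 : 144 * v ^ 2 = 1 := by linear_combination (12 * v + 1) * hv
  have hu : 144 * (f v) ^ 2 = 1 := by
    have := congrArg f hu0
    rw [map_mul, map_pow, map_ofNat, map_one] at this
    exact this
  have hfv : 12 * f v = 1 := by
    have := congrArg f hv
    rw [map_mul, map_ofNat, map_one] at this
    exact this
  have hfr : (rdW hp2 hl).r w ^ p = -(rdW hp2 hl).r w := by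
    have e1 : (rdW hp2 hl).r w = ⟨0, PadicInt.toZMod v5⟩ := by
      show redW w = _
      rw [redW_apply, hwd]
      ext <;> simp
    rw [e1, KW_frob hp2 hl]
    ext <;> simp
  have hα : (p : WW p) ∣ i * t + y * ((t - 5) * (72 * (f v) ^ 2)) := by
    obtain ⟨m, hm⟩ := hpt
    have hm' := congrArg f hm
    simp only [map_add, map_mul, map_intCast, map_natCast] at hm'
    rw [hi, ← ht'] at hm'
    push_cast at hm'
    refine ⟨(6 * f v) * f m, ?_⟩
    linear_combination (6 * f v) * hm' + (-(i * t) + 6 * f v * y * (t - 5)) * hfv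
  have key := caseB_gen (rdW hp2 hl) (by omega) hw ht hu hn hy3 hα hfr
  -- Clausen's formula
  obtain ⟨c, hc⟩ : ∃ c : WW p, c = (16 + 36 * w) * (24 * ((f v) ^ 2) ^ 2) := ⟨_, rfl⟩
  rw [← hc] at key
  have hcm : c * (1 - 27 * c) = f mi := by
    have hmi' := congrArg f hmi
    rw [map_mul, map_neg, map_ofNat, map_one] at hmi'
    have h864 : 864 * (24 * ((f v) ^ 2) ^ 2) = 1 := by linear_combination (144 * (f v) ^ 2 + 1) * hu
    have h1 := clausen_param hw h864
    rw [← hc] at h1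
    linear_combination (f mi) * h1 - (c * (1 - 27 * c)) * hmi'
  obtain ⟨k1, hk1⟩ := clausen3 hpp c
  rw [hcm, ← T3_eq'] at hk1
  obtain ⟨k2, hk2⟩ := key
  have h1 : (p : WW p) ^ 2 ∣ f ((∑ k ∈ Finset.range p, ((u3 k : ℤ) : ℤ_[p]) * mi ^ k) -
      ((25 * y ^ 2 - 2 * p : ℤ) : ℤ_[p])) := by
    refine ⟨k1 + k2, ?_⟩
    rw [map_sub, map_sum]
    simp only [map_mul, map_pow, map_intCast]
    have hxy' : (4 : WW p) * p = 3 * (2 * i + y) ^ 2 + 25 * y ^ 2 := by
      have := congrArg (fun z : ℤ => (z : WW p)) hxy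
      push_cast at this
      rw [hi] at this
      push_cast at this
      exact this
    push_cast at hk2 ⊢
    linear_combination hk1 + hk2 + hxy'
  have h2 : (p : WW p) ^ 2 = f ((p : ℤ_[p]) ^ 2) := by rw [map_pow, map_natCast]
  rw [h2, hf, QuadraticAlgebra.algebraMap_dvd_iff_dvd] at h1
  exact h1

end Pool.Agent.H35.Q75
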