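import Pool.Agent.H35.Q75.A2

/-!
The inert case.
-/

set_option autoImplicit false
set_option linter.unusedSectionVars false
set_option linter.unusedSimpArgs false
set_option linter.unusedVariables false

namespace Pool.Agent.H35.Q75

open Polynomial
open Pool.Agent.H475R2 (T3 t3 u3 clausen3 isUnit_intCast twelve_inv split_final mid_coeff
  nat_ne frob_neg frob_ne padic_phi padic_phi_frob descent qmap T3_eq)
open Pool.Agent.H35.Q51 (inert2 fh_aeval fz fh natCast_pow_p neg3_nonsq)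

section charp

variable {p : ℕ} [hp : Fact p.Prime] {K : Type*} [Field K] [hK : CharP K p]

include hp hK

/-- The relation given by the isogeny of degree seven. -/
theorem rel7 (hp5 : 5 < p) {h : ℕ} (hh : p = 2 * h + 1) {w t u : K} (hw : 5 * w ^ 2 = 1)
    (ht : t ^ 2 = -3) (hu : 144 * u = 1) (hμ : t - 5 ≠ 0) :
    (fz (16 + 36 * w) ^ h).coeff (p - 1) =
      ((t - 5) * (72 * u)) ^ (p - 1) * (fz (16 - 36 * w) ^ h).coeff (p - 1) := by
  have n2 : (2 : K) ≠ 0 := by
    have := nat_ne (p := p) (K := K) (m := 2) (by norm_num) (by omega)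
    exact_mod_cast this
  have hu0 : u ≠ 0 := by
    rintro rfl
    rw [mul_zero] at hu
    exact zero_ne_one hu
  have hw0 : w ≠ 0 := by
    rintro rfl
    norm_num at hw
  have n36 : (36 * u) ≠ 0 := by
    intro h0
    have : (1 : K) = 0 := by linear_combination 4 * h0 - hu
    exact one_ne_zero this
  have e16 : (16 + 36 * w) * (16 - 36 * w) = -16 * w ^ 2 := by linear_combination (-256 : K) * hw
  have hb' : (16 - 36 * w) ≠ 0 := by
    intro h0
    rw [h0, mul_zero] at e16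
    have : (2 : K) ^ 4 * w ^ 2 = 0 := by linear_combination e16
    exact mul_ne_zero (pow_ne_zero 4 n2) (pow_ne_zero 2 hw0) this
  obtain ⟨N, hN⟩ : ∃ N, N = PX (5 * w) t lN7 := ⟨_, rfl⟩
  obtain ⟨Kp, hKp⟩ : ∃ Kp, Kp = PX (5 * w) t lK7 := ⟨_, rfl⟩
  obtain ⟨M, hM⟩ : ∃ M, M = PX (5 * w) t lM7 := ⟨_, rfl⟩
  have i1 : 64 * (fz (16 + 36 * w) * M ^ 2) = 64 * N ^ 3 + 576 * N ^ 2 * Kp ^ 2 +
      48 * (16 - 36 * C w) * N * Kp ^ 4 + (16 - 36 * C w) ^ 2 * Kp ^ 6 := by
    have e := id1 (hwC hw) (htC ht) (X : K[X])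
    rw [← C5w] at e
    have e2 : fz (16 + 36 * w) = (X ^ 3 + 36 * X ^ 2 + 12 * (16 + 36 * C w) * X +
        (16 + 36 * C w) ^ 2 : K[X]) := by
      unfold fz
      simp only [C_add, C_mul, C_pow, map_ofNat]
    rw [e2, hN, hKp, hM]
    exact e
  have i2 : derivative N * Kp - 2 * (N * derivative Kp) = (C t - 5) * M := by
    rw [hN, hKp, hM, PX_der, PX_der]
    have e := id2 (hwC hw) (htC ht) (X : K[X])
    rw [← C5w] at e
    exact e
  have huC : 144 * C u = 1 := by
    have := congrArg (C : K → K[X]) hu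
    rw [C_mul, map_ofNat, C_1] at this
    exact this
  refine inert2 hh (f := fz (16 + 36 * w)) (f' := fz (16 - 36 * w)) (N := N) (D := C (36 * u) * Kp ^ 2)
    (fh := fh (16 - 36 * w) N (C (36 * u) * Kp ^ 2)) (μ := (t - 5) * (72 * u)) ?_ ?_ ?_ ?_ ?_ ?_
  · unfold fz
    simp only [coeff_add, coeff_C_mul, coeff_X_pow, coeff_X, coeff_C]
    norm_num
    exact hb'
  · rw [hN, PX_coeff]
    show Z4.ev (5 * w) t ⟨0, 0, 0, 0⟩ = 0
    simp [Z4.ev]
  · rw [coeff_C_mul, pow_two, mul_coeff_zero, hKp, PX_coeff]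
    have hne : Z4.ev (5 * w) t (lK7.getD 0 ⟨0, 0, 0, 0⟩) ≠ 0 := by
      intro h0
      have e1 := Z4.ev_mul (hs5 hw) ht (lK7.getD 0 ⟨0, 0, 0, 0⟩) ⟨-2207, 987, -2207, 987⟩
      rw [h0, zero_mul] at e1
      have e2 : Z4.mul (lK7.getD 0 ⟨0, 0, 0, 0⟩) ⟨-2207, 987, -2207, 987⟩ =
        ⟨512, 0, 0, 0⟩ := by rfl
      rw [e2] at e1
      unfold Z4.ev at e1
      push_cast at e1
      have : (2 : K) ^ 9 = 0 := by linear_combination e1
      exact pow_ne_zero 9 n2 this
    exact mul_ne_zero n36 (mul_ne_zero hne hne)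
  · refine mul_ne_zero hμ ?_
    intro h0
    have : (1 : K) = 0 := by linear_combination 2 * h0 - hu
    exact one_ne_zero this
  · intro Q hQ
    exact fh_aeval _ _ _ Q hQ
  · have dD : derivative (C (36 * u) * Kp ^ 2) = C (36 * u) * (2 * Kp * derivative Kp) := by
      rw [derivative_C_mul, derivative_pow]
      push_cast
      simp only [map_ofNat]
      ring
    rw [dD]
    have e1 : derivative N * (C (36 * u) * Kp ^ 2) - N * (C (36 * u) * (2 * Kp * derivative Kp)) =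
      C (36 * u) * Kp * ((C t - 5) * M) := by
      rw [← i2]; ring
    rw [e1]
    unfold fh
    have e3 : (64 : K[X]) ≠ 0 := by
      have : (64 : K[X]) = C ((2 : K) ^ 6) := by rw [map_pow, map_ofNat]; norm_num
      rw [this]
      exact C_ne_zero.2 (pow_ne_zero 6 n2)
    apply mul_left_cancel₀ e3
    simp only [C_mul, C_sub, C_pow, map_ofNat]
    have q1 : (144 * C u) ^ 2 = (1 : K[X]) := by rw [huC, one_pow]
    have q2 : (144 * C u) ^ 4 = (1 : K[X]) := by rw [huC, one_pow]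
    have q4 : (144 * C u) ^ 1 = (1 : K[X]) := by rw [huC, one_pow]
    have q5 : (144 * C u) ^ 3 = (1 : K[X]) := by rw [huC, one_pow]
    linear_combination ((36 * C u) ^ 2 * Kp ^ 2 * (C t - 5) ^ 2) * (i1 - 64 * N ^ 3 * q4 -
      576 * N ^ 2 * Kp ^ 2 * q1 - 48 * (16 - 36 * C w) * N * Kp ^ 4 * q5 -
      (16 - 36 * C w) ^ 2 * Kp ^ 6 * q2)

/-- The middle coefficient vanishes. -/
theorem mid_zero (hp5 : 5 < p) {h : ℕ} (hh : p = 2 * h + 1) {w t u : K} (hw : 5 * w ^ 2 = 1)
    (ht : t ^ 2 = -3) (hu : 144 * u = 1) (htp : t ^ p = -t) :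
    (fz (16 + 36 * w) ^ h).coeff (p - 1) = 0 := by
  have hpp := hp.out
  have n2 : (2 : K) ≠ 0 := by
    have := nat_ne (p := p) (K := K) (m := 2) (by norm_num) (by omega)
    exact_mod_cast this
  have n3 : (3 : K) ≠ 0 := by
    have := nat_ne (p := p) (K := K) (m := 3) (by norm_num) (by omega)
    exact_mod_cast this
  have n5 : (5 : K) ≠ 0 := by
    have := nat_ne (p := p) (K := K) (m := 5) (by norm_num) (by omega)
    exact_mod_cast this
  have n5p : (5 : K) ^ p = 5 := by exact_mod_cast natCast_pow_p (p := p) (K := K) 5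
  have t0 : t ≠ 0 := by
    rintro rfl
    apply n3
    linear_combination ht
  have hodd := hpp.odd_of_ne_two (by omega)
  have htn : (-t) ^ 2 = -3 := by rw [neg_sq, ht]
  have htnp : (-t) ^ p = -(-t) := by rw [hodd.neg_pow, htp]
  have hne : ∀ t' : K, t' ^ p = -t' → t' - 5 ≠ 0 := by
    intro t' ht' h0
    have e1 : t' = 5 := sub_eq_zero.1 h0
    rw [e1, n5p] at ht'
    have : (2 : K) * 5 = 0 := by linear_combination ht'
    exact mul_ne_zero n2 n5 this
  have r1 := rel7 hp5 hh hw ht hu (hne t htp)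
  have r2 := rel7 hp5 hh hw htn hu (hne (-t) htnp)
  by_contra hcon
  obtain ⟨H, hH⟩ : ∃ H, H = (fz (16 + 36 * w) ^ h).coeff (p - 1) := ⟨_, rfl⟩
  obtain ⟨H', hH'⟩ : ∃ H', H' = (fz (16 - 36 * w) ^ h).coeff (p - 1) := ⟨_, rfl⟩
  rw [← hH, ← hH'] at r1 r2
  rw [← hH] at hcon
  have hH'0 : H' ≠ 0 := by
    rintro rfl
    rw [mul_zero] at r1
    exact hcon r1
  have e1 : ((t - 5) * (72 * u)) ^ (p - 1) = ((-t - 5) * (72 * u)) ^ (p - 1) := by
    apply mul_right_cancel₀ hH'0
    rw [← r1, ← r2]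
  have hpp1 : p = (p - 1) + 1 := by have := hpp.pos; omega
  have h72 : 72 * u ≠ 0 := by
    intro h0
    have : (1 : K) = 0 := by linear_combination 2 * h0 - hu
    exact one_ne_zero this
  have e2 : (t - 5) ^ (p - 1) = (-t - 5) ^ (p - 1) := by
    rw [mul_pow (t - 5), mul_pow (-t - 5)] at e1
    exact mul_right_cancel₀ (pow_ne_zero _ h72) e1
  have e3 : (t - 5) ^ p * (-t - 5) = (-t - 5) ^ p * (t - 5) := by
    conv_lhs => rw [hpp1, pow_succ, e2]
    conv_rhs => rw [hpp1, pow_succ]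
    ring
  rw [sub_pow_char, sub_pow_char, htp, htnp, n5p] at e3
  have h4 : 2 * 2 * 5 * t = 0 := by linear_combination e3
  exact mul_ne_zero (mul_ne_zero (mul_ne_zero n2 n2) n5) t0 h4

/-- The truncated sum vanishes. -/
theorem sum_zero (hp5 : 5 < p) {w t u : K} (hw : 5 * w ^ 2 = 1)
    (ht : t ^ 2 = -3) (hu : 144 * u = 1) (htp : t ^ p = -t) :
    ∑ k ∈ Finset.range p, ((t3 k : ℤ) : K) * ((16 + 36 * w) * (24 * u ^ 2)) ^ k = 0 := by
  have hpp := hp.out
  obtain ⟨h, hh⟩ := hpp.odd_of_ne_two (by omega)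
  have hz := mid_zero hp5 hh hw ht hu htp
  obtain ⟨c, hc⟩ : ∃ c : K, c = (16 + 36 * w) * (24 * u ^ 2) := ⟨_, rfl⟩
  have h864 : 864 * (24 * u ^ 2) = 1 := by linear_combination (144 * u + 1) * hu
  have hβ : 16 + 36 * w = 864 * c := by rw [hc]; linear_combination (-(16 + 36 * w)) * h864
  rw [← hc]
  have hf : 4 * (C (u ^ 3) * (fz (16 + 36 * w)).comp (C 144 * X)) = 4 * X ^ 3 + (X + C c) ^ 2 := by
    rw [hβ]
    unfold fz
    simp only [add_comp, mul_comp, pow_comp, X_comp, C_comp]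
    have huC : 144 * C u = 1 := by
      have := congrArg (C : K → K[X]) hu
      rw [C_mul, map_ofNat, C_1] at this
      exact this
    have q1 : (144 * C u) ^ 3 = (1 : K[X]) := by rw [huC, one_pow]
    simp only [C_mul, C_pow, map_ofNat]
    linear_combination (4 * X ^ 3 + X ^ 2 + 2 * C c * X + C c ^ 2) * q1
  have hmid := mid_coeff hh hf
  rw [← hmid, mul_pow, ← C_pow, coeff_C_mul, ← pow_comp, comp_C_mul_X_coeff, hz]
  ring

end charp

variable {p : ℕ} [hp : Fact p.Prime]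

theorem inert (hp5 : 5 < p) (h3 : p % 3 = 2) {mi : ℤ_[p]} (hmi : -8640 * mi = 1) :
    (p : ℤ_[p]) ^ 2 ∣ ∑ k ∈ Finset.range p, ((u3 k : ℤ) : ℤ_[p]) * mi ^ k := by
  have hpp := hp.out
  have hp2 : p ≠ 2 := by omega
  have hd : legendreSym p (-3) = -1 := by
    rw [legendreSym.eq_neg_one_iff]
    rintro ⟨r, hr⟩
    apply neg3_nonsq (by omega) h3 r
    push_cast at hr
    rw [hr]; ring
  obtain ⟨v, hv⟩ := twelve_inv (p := p) (by omega)
  obtain ⟨v5, hv5⟩ := five_inv (p := p) hp5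
  let K := AlgebraicClosure (ZMod p)
  have hK : CharP K p := charP_of_injective_algebraMap (algebraMap (ZMod p) K).injective p
  set φ : ℤ_[p] →+* K := (algebraMap (ZMod p) K).comp PadicInt.toZMod with hφ
  have hu0 : 144 * v ^ 2 = 1 := by linear_combination (12 * v + 1) * hv
  have huK : 144 * (φ v) ^ 2 = 1 := by
    have := congrArg φ hu0
    rw [map_mul, map_pow, map_ofNat, map_one] at this
    exact this
  obtain ⟨t, ht0⟩ : ∃ t : K, t ^ 2 = -3 := IsAlgClosed.exists_pow_nat_eq _ (by norm_num)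
  have htp : t ^ p = -t := by
    apply frob_neg hp2 hd
    rw [ht0]; push_cast; norm_num
  have h864 : 864 * (24 * (v ^ 2) ^ 2) = 1 := by linear_combination (144 * v ^ 2 + 1) * hu0
  by_cases hsq : IsSquare ((5 : ℤ) : ZMod p)
  · -- `5` is a residue
    obtain ⟨w, hw⟩ := exists_w hp5 hsq
    have hwK : 5 * (φ w) ^ 2 = 1 := by
      have := congrArg φ hw
      rw [map_mul, map_pow, map_ofNat, map_one] at this
      exact this
    obtain ⟨c, hc⟩ : ∃ c : ℤ_[p], c = (16 + 36 * w) * (24 * (v ^ 2) ^ 2) := ⟨_, rfl⟩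
    have hz := sum_zero hp5 hwK ht0 huK htp
    have hT : (p : ℤ_[p]) ∣ T3 p c := by
      apply padic_phi K
      show φ (T3 p c) = 0
      rw [T3_eq, map_sum, ← hz]
      apply Finset.sum_congr rfl
      intro k _
      rw [map_mul, map_pow, map_intCast, hc]
      simp only [map_mul, map_add, map_pow, map_ofNat]
    have h2 : (p : ℤ_[p]) ^ 2 ∣ T3 p c ^ 2 - ((0 : ℤ) : ℤ_[p]) := by
      rw [Int.cast_zero, sub_zero]
      exact pow_dvd_pow_of_dvd hT 2
    have h4 := split_final (mi := mi) ?_ h2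
    · rw [Int.cast_zero, sub_zero] at h4; exact h4
    · have h1 := clausen_param hw h864
      rw [← hc] at h1
      linear_combination mi * h1 - (c * (1 - 27 * c)) * hmi
  · -- `5` is not a residue
    have hl5 : legendreSym p 5 = -1 := (legendreSym.eq_neg_one_iff p).2 hsq
    obtain ⟨s, hs⟩ : ∃ s : K, s ^ 2 = 5 := IsAlgClosed.exists_pow_nat_eq _ (by norm_num)
    have hs' : s ^ 2 = ((5 : ℤ) : K) := by rw [hs]; push_cast; rfl
    have hsn : s ^ p ≠ s := frob_ne hp2 hl5 hs'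
    have hv5K : 5 * φ v5 = 1 := by
      have := congrArg φ hv5
      rw [map_mul, map_ofNat, map_one] at this
      exact this
    have hwK : 5 * (s * φ v5) ^ 2 = 1 := by
      linear_combination (5 * (φ v5) ^ 2) * hs + (5 * φ v5 + 1) * hv5K
    have hz := sum_zero hp5 hwK ht0 huK htp
    have hu : s * s = φ 5 + φ 0 * s := by
      rw [map_ofNat, map_zero]; linear_combination hs
    refine descent φ (padic_phi K) hu (padic_phi_frob K) hsn
      (⟨16 * (24 * (v ^ 2) ^ 2), 36 * v5 * (24 * (v ^ 2) ^ 2)⟩) mi ?_ ?_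
    · obtain ⟨q, hq⟩ : ∃ q : ℤ_[p], q = 24 * (v ^ 2) ^ 2 := ⟨_, rfl⟩
      rw [← hq] at h864 ⊢
      have n8640 : (-8640 : ℤ_[p]) ≠ 0 := by norm_num
      ext
      · simp only [QuadraticAlgebra.re_mul, QuadraticAlgebra.im_mul, QuadraticAlgebra.re_sub,
          QuadraticAlgebra.im_sub, QuadraticAlgebra.re_one, QuadraticAlgebra.im_one,
          QuadraticAlgebra.re_ofNat, QuadraticAlgebra.im_ofNat, QuadraticAlgebra.re_C]
        apply mul_left_cancel₀ n8640
        rw [hmi]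
        linear_combination (161 * 864 * q + 1) * h864 + (60466176 * q ^ 2) * (5 * v5 + 1) * hv5
      · simp only [QuadraticAlgebra.re_mul, QuadraticAlgebra.im_mul, QuadraticAlgebra.re_sub,
          QuadraticAlgebra.im_sub, QuadraticAlgebra.re_one, QuadraticAlgebra.im_one,
          QuadraticAlgebra.re_ofNat, QuadraticAlgebra.im_ofNat, QuadraticAlgebra.im_C]
        linear_combination (-36 * q * v5) * h864
    · have : qmap φ 5 0 s hu ⟨16 * (24 * (v ^ 2) ^ 2), 36 * v5 * (24 * (v ^ 2) ^ 2)⟩ =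
          (16 + 36 * (s * φ v5)) * (24 * ((φ v) ^ 2) ^ 2) := by
        show φ (16 * (24 * (v ^ 2) ^ 2)) + φ (36 * v5 * (24 * (v ^ 2) ^ 2)) * s = _
        simp only [map_mul, map_pow, map_ofNat]
        ring
      rw [this]
      exact hz

end Pool.Agent.H35.Q75
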