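import Pool.Agent.H35.Q75.P2

/-!
The polynomial identities behind the isogenies, in an arbitrary commutative ring.
-/

set_option autoImplicit false
set_option linter.unusedSectionVars false
set_option linter.unusedSimpArgs false
set_option linter.unusedVariables false

namespace Pool.Agent.H35.Q75

variable {A : Type*} [CommRing A] {w t : A}

theorem hs5 (hw : 5 * w ^ 2 = 1) : (5 * w) ^ 2 = 5 := by linear_combination 5 * hw

theorem evF (hw : 5 * w ^ 2 = 1) (z : A) :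
    evL (5 * w) t z lF = 5 * (z ^ 3 + 36 * z ^ 2 + 12 * (16 + 36 * w) * z + (16 + 36 * w) ^ 2) := by
  unfold lF
  simp only [evL, Z4.ev]
  push_cast
  linear_combination (-1296 : A) * hw

theorem evN3 (hw : 5 * w ^ 2 = 1) (z : A) :
    evL (5 * w) t z lN3 = 5 * (z ^ 3 + 48 * z ^ 2 + 24 * (16 + 36 * w) * z + 4 * (16 + 36 * w) ^ 2) := by
  unfold lN3
  simp only [evL, Z4.ev]
  push_cast
  linear_combination (-5184 : A) * hw

theorem evM3 (hw : 5 * w ^ 2 = 1) (z : A) :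
    evL (5 * w) t z lM3 = 5 * (z ^ 3 - 24 * (16 + 36 * w) * z - 8 * (16 + 36 * w) ^ 2) := by
  unfold lM3
  simp only [evL, Z4.ev]
  push_cast
  linear_combination (10368 : A) * hw

section
variable (hw : 5 * w ^ 2 = 1) (ht : t ^ 2 = -3) (z : A)
include hw ht

theorem id1 : 64 * ((z ^ 3 + 36 * z ^ 2 + 12 * (16 + 36 * w) * z + (16 + 36 * w) ^ 2) *
      evL (5 * w) t z lM7 ^ 2) = 64 * evL (5 * w) t z lN7 ^ 3 +
    576 * evL (5 * w) t z lN7 ^ 2 * evL (5 * w) t z lK7 ^ 2 +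
    48 * (16 - 36 * w) * evL (5 * w) t z lN7 * evL (5 * w) t z lK7 ^ 4 +
      (16 - 36 * w) ^ 2 * evL (5 * w) t z lK7 ^ 6 := by
  have e := Ex.sound e1_ok (hs5 hw) ht z
  unfold e1 at e
  simp only [Ex.ev, evL, Z4.ev] at e
  rw [evF hw] at e
  push_cast at e
  generalize evL (5 * w) t z lM7 = M at e ⊢
  generalize evL (5 * w) t z lN7 = N at e ⊢
  generalize evL (5 * w) t z lK7 = K at e ⊢
  linear_combination w ^ 2 * e - (64 * ((z ^ 3 + 36 * z ^ 2 + 12 * (16 + 36 * w) * z +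
    (16 + 36 * w) ^ 2) * M ^ 2) - (64 * N ^ 3 + 576 * N ^ 2 * K ^ 2 + 48 * (16 - 36 * w) * N * K ^ 4 +
      (16 - 36 * w) ^ 2 * K ^ 6) + 1296 * w ^ 2 * K ^ 6) * hw

theorem id2 : evL (5 * w) t z (pder lN7) * evL (5 * w) t z lK7 -
      2 * (evL (5 * w) t z lN7 * evL (5 * w) t z (pder lK7)) =
    (t - 5) * evL (5 * w) t z lM7 := by
  have e := Ex.sound e2_ok (hs5 hw) ht z
  unfold e2 at e
  simp only [Ex.ev, Z4.ev] at e
  rw [show evL (5 * w) t z [⟨2, 0, 0, 0⟩] = 2 by simp [evL, Z4.ev],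
    show evL (5 * w) t z [⟨-5, 0, 1, 0⟩] = t - 5 by simp [evL, Z4.ev]; ring] at e
  linear_combination e

theorem id3 : 5 * (z ^ 3 + 36 * z ^ 2 + 12 * (16 + 36 * w) * z + (16 + 36 * w) ^ 2) *
      ((t * (evL (5 * w) t z lM3 * evL (5 * w) t z lK7 ^ 3) +
      360 * (z ^ 3 * evL (5 * w) t z lM7)) ^ 2 * evL (5 * w) (-t) z lK7 ^ 2) =
    (180 * z ^ 2 * evL (5 * w) t z lK7 ^ 2 * evL (5 * w) (-t) z lN7 +
      1620 * z ^ 2 * evL (5 * w) t z lK7 ^ 2 * evL (5 * w) (-t) z lK7 ^ 2 -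
      3 * evL (5 * w) t z lN3 * evL (5 * w) t z lK7 ^ 2 * evL (5 * w) (-t) z lK7 ^ 2 +
      180 * z ^ 2 * evL (5 * w) t z lN7 * evL (5 * w) (-t) z lK7 ^ 2) *
      (evL (5 * w) t z lN3 * evL (5 * w) t z lK7 ^ 2 + 60 * z ^ 2 * evL (5 * w) t z lN7) ^ 2 := by
  have e := Ex.sound e3_ok (hs5 hw) ht z
  unfold e3 at e
  simp only [Ex.ev, evL, Z4.ev, evL_pcj] at e
  rw [evF hw] at e
  push_cast at e
  linear_combination e

theorem id4 : evL (5 * w) t z lU7 * evL (5 * w) t z lN7 + evL (5 * w) t z lV7 * evL (5 * w) t z lK7 =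
    509607936 := by
  have e := Ex.sound e4_ok (hs5 hw) ht z
  unfold e4 at e
  simp only [Ex.ev, evL, Z4.ev] at e
  push_cast at e
  linear_combination e

theorem id6 : evL (5 * w) t z lU19 * evL (5 * w) t z lN19 +
    evL (5 * w) t z lV19 * evL (5 * w) t z lK19 = 344649238497994142121984 := by
  have e := Ex.sound e6_ok (hs5 hw) ht z
  unfold e6 at e
  simp only [Ex.ev, evL, Z4.ev] at e
  push_cast at e
  linear_combination e

theorem evN21 : evL (5 * w) t z lN21 = 320 * evL (5 * w) t z lN7 ^ 3 +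
    3840 * evL (5 * w) t z lN7 ^ 2 * evL (5 * w) t z lK7 ^ 2 +
    480 * (16 - 36 * w) * evL (5 * w) t z lN7 * evL (5 * w) t z lK7 ^ 4 +
      20 * (16 - 36 * w) ^ 2 * evL (5 * w) t z lK7 ^ 6 := by
  have e := Ex.sound e7_ok (hs5 hw) ht z
  unfold e7 at e
  simp only [Ex.ev, evL, Z4.ev] at e
  push_cast at e
  linear_combination e - (5184 * evL (5 * w) t z lK7 ^ 6) * hw

theorem evM21 : evL (5 * w) t z lM21 = 320 * evL (5 * w) t z lN7 ^ 3 -
    480 * (16 - 36 * w) * evL (5 * w) t z lN7 * evL (5 * w) t z lK7 ^ 4 -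
      40 * (16 - 36 * w) ^ 2 * evL (5 * w) t z lK7 ^ 6 := by
  have e := Ex.sound e8_ok (hs5 hw) ht z
  unfold e8 at e
  simp only [Ex.ev, evL, Z4.ev] at e
  push_cast at e
  linear_combination e + (10368 * evL (5 * w) t z lK7 ^ 6) * hw

theorem evH5 : evL (5 * w) t z lH5 =
    240 * z * evL (5 * w) t z lN7 ^ 2 * evL (5 * w) t z lK7 ^ 2 + evL (5 * w) t z lN21 := by
  have e := Ex.sound e9_ok (hs5 hw) ht z
  unfold e9 at e
  simp only [Ex.ev, evL, Z4.ev] at e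
  push_cast at e
  rw [evN21 hw ht]
  linear_combination e - (5184 * evL (5 * w) t z lK7 ^ 6) * hw

theorem id5 : 5 * (z ^ 3 + 36 * z ^ 2 + 12 * (16 + 36 * w) * z + (16 + 36 * w) ^ 2) *
      ((2880 * (evL (5 * w) t z lK7 ^ 3 * evL (5 * w) t z lN7 ^ 3) -
      8 * t * (evL (5 * w) t z lM7 * (320 * evL (5 * w) t z lN7 ^ 3 -
        480 * (16 - 36 * w) * evL (5 * w) t z lN7 * evL (5 * w) t z lK7 ^ 4 -
        40 * (16 - 36 * w) ^ 2 * evL (5 * w) t z lK7 ^ 6))) ^ 2 * evL (5 * w) t z lK19 ^ 2) =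
    3 * (960 * evL (5 * w) t z lN19 * evL (5 * w) t z lN7 ^ 2 * evL (5 * w) t z lK7 ^ 2 +
      240 * (36 + z) * evL (5 * w) t z lN7 ^ 2 * evL (5 * w) t z lK7 ^ 2 * evL (5 * w) t z lK19 ^ 2 -
      evL (5 * w) t z lN21 * evL (5 * w) t z lK19 ^ 2) *
      (240 * z * evL (5 * w) t z lN7 ^ 2 * evL (5 * w) t z lK7 ^ 2 + evL (5 * w) t z lN21) ^ 2 := by
  have e := Ex.sound e5_ok (hs5 hw) ht z
  unfold e5 at e
  simp only [Ex.ev, evL, Z4.ev] at e
  rw [evF hw] at e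
  push_cast at e
  rw [evN21 hw ht]
  generalize evL (5 * w) t z lM7 = M at e ⊢
  generalize evL (5 * w) t z lN7 = N at e ⊢
  generalize evL (5 * w) t z lK7 = K at e ⊢
  generalize evL (5 * w) t z lN19 = N19 at e ⊢
  generalize evL (5 * w) t z lK19 = K19 at e ⊢
  have q1 : (40 : A) * (16 - 36 * w) ^ 2 = 20608 - 9216 * (5 * w) := by
    linear_combination (10368 : A) * hw
  have q2 : (20 : A) * (16 - 36 * w) ^ 2 = 10304 - 4608 * (5 * w) := by
    linear_combination (5184 : A) * hw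
  rw [q1, q2]
  linear_combination e

end

end Pool.Agent.H35.Q75
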