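import Pool.Agent.H35.Q51.G2
import Pool.Agent.H35.Q75.P3

/-!
Points: the isogeny of degree seven.
-/

set_option autoImplicit false
set_option linter.unusedSectionVars false
set_option linter.unusedSimpArgs false
set_option linter.unusedVariables false

namespace Pool.Agent.H35.Q75

open WeierstrassCurve Polynomial
open Pool.Agent.H475R2 (EW Rep XR Om Dn dsc fx dfx eq_of_nonsing nonsing_iff add_ne neg_some'
  coprime_X_sub_C)
open Pool.Agent.H35.Q51 (om_of_x phi3 cop_of fz fh)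

section nz

variable {R : Type*} [CommRing R] [IsDomain R] [CharZero R] {s t : R}

theorem ev_ne (hs : s ^ 2 = 5) (ht : t ^ 2 = -3) {q q' : Z4} {n : ℤ}
    (h : Z4.isz (Z4.add (Z4.mul q q') ⟨-n, 0, 0, 0⟩) = true) (hn : n ≠ 0) : q.ev s t ≠ 0 := by
  intro h0
  have e := Z4.ev_isz s t h
  rw [Z4.ev_add, Z4.ev_mul hs ht, h0] at e
  unfold Z4.ev at e
  push_cast at e
  apply hn
  have : (n : R) = 0 := by linear_combination -e
  exact_mod_cast this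

theorem PX_ne (hs : s ^ 2 = 5) (ht : t ^ 2 = -3) {l : PL} (k : ℕ) (q' : Z4) (n : ℤ)
    (h : Z4.isz (Z4.add (Z4.mul (l.getD k ⟨0, 0, 0, 0⟩) q') ⟨-n, 0, 0, 0⟩) = true) (hn : n ≠ 0) :
    PX s t l ≠ 0 := by
  intro h0
  have e := PX_coeff s t l k
  rw [h0, coeff_zero] at e
  exact ev_ne hs ht h hn e.symm

theorem ι_ne {L : Type*} [Field L] {ι : R[X] →+* L} (hι : Function.Injective ι)
    (hs : s ^ 2 = 5) (ht : t ^ 2 = -3) {l : PL} (k : ℕ) (q' : Z4) (n : ℤ)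
    (h : Z4.isz (Z4.add (Z4.mul (l.getD k ⟨0, 0, 0, 0⟩) q') ⟨-n, 0, 0, 0⟩) = true) (hn : n ≠ 0) :
    evL (ι (C s)) (ι (C t)) (ι X) l ≠ 0 := by
  rw [← ι_PX, Ne, map_eq_zero_iff ι hι]
  exact PX_ne hs ht k q' n h hn

end nz

section field

variable {L : Type*} [Field L] [DecidableEq L]

/-- The isogeny of degree seven, at the generic point. -/
theorem psi7 (h2 : (2 : L) ≠ 0) {A' B' G' w t z y μ : L} (hw : 5 * w ^ 2 = 1) (ht : t ^ 2 = -3)
    (hA' : A' = 36) (hB' : B' = 12 * (16 - 36 * w)) (hG' : G' = (16 - 36 * w) ^ 2)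
    (hy : y ^ 2 = z ^ 3 + 36 * z ^ 2 + 12 * (16 + 36 * w) * z + (16 + 36 * w) ^ 2)
    (hy0 : y ≠ 0) (hk : evL (5 * w) t z lK7 ≠ 0) (hm : evL (5 * w) t z lM7 ≠ 0)
    {d : L → L} (hd : Dn A' B' G' d) (dn : d (evL (5 * w) t z lN7) = 2 * y * evL (5 * w) t z (pder lN7))
    (dk : d (evL (5 * w) t z lK7) = 2 * y * evL (5 * w) t z (pder lK7)) (hμ : 2 * μ = t - 5) :
    ∃ (x' y' : L) (h' : (EW A' B' G').Nonsingular x' y'),
      x' * evL (5 * w) t z lK7 ^ 2 = 4 * evL (5 * w) t z lN7 ∧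
      y' * evL (5 * w) t z lK7 ^ 3 = 8 * y * evL (5 * w) t z lM7 ∧ y' ≠ 0 ∧ d x' = 2 * y' * μ := by
  have i1 := id1 hw ht z
  have i2 := id2 hw ht z
  set n := evL (5 * w) t z lN7 with hn
  set k := evL (5 * w) t z lK7 with hk'
  set m := evL (5 * w) t z lM7 with hm'
  have h8 : (8 : L) ≠ 0 := by
    rw [show (8 : L) = 2 ^ 3 by norm_num]; exact pow_ne_zero 3 h2
  obtain ⟨x', hx'⟩ : ∃ x', x' * k ^ 2 = 4 * n := ⟨4 * n / k ^ 2, by field_simp⟩
  obtain ⟨y', hy'⟩ : ∃ y', y' * k ^ 3 = 8 * y * m := ⟨8 * y * m / k ^ 3, by field_simp⟩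
  have hcurve : y' ^ 2 = fx A' B' G' x' := by
    have h6 : k ^ 6 ≠ 0 := pow_ne_zero 6 hk
    apply mul_right_cancel₀ h6
    unfold fx
    rw [hA', hB', hG']
    have e1 : y' ^ 2 * k ^ 6 = 64 * (y ^ 2 * m ^ 2) := by
      have : y' ^ 2 * k ^ 6 = (y' * k ^ 3) ^ 2 := by ring
      rw [this, hy']; ring
    have e2 : (x' ^ 3 + 36 * x' ^ 2 + 12 * (16 - 36 * w) * x' + (16 - 36 * w) ^ 2) * k ^ 6 =
        (x' * k ^ 2) ^ 3 + 36 * (x' * k ^ 2) ^ 2 * k ^ 2 + 12 * (16 - 36 * w) * (x' * k ^ 2) * k ^ 4 +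
          (16 - 36 * w) ^ 2 * k ^ 6 := by ring
    rw [e1, e2, hx', hy, i1]
    ring
  have hy'0 : y' ≠ 0 := by
    rintro rfl
    rw [zero_mul] at hy'
    exact mul_ne_zero (mul_ne_zero h8 hy0) hm hy'.symm
  have hns : (EW A' B' G').Nonsingular x' y' := (nonsing_iff h2 _ _).2 ⟨hcurve, Or.inl hy'0⟩
  refine ⟨x', y', hns, hx', hy', hy'0, ?_⟩
  have d4 : d 4 = 0 := by
    rw [show (4 : L) = 2 + 2 by norm_num, hd.add, hd.two]; ring
  have e3 := congrArg d hx'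
  rw [hd.mul, hd.sq, hd.mul, d4, dn, dk] at e3
  apply mul_left_cancel₀ (pow_ne_zero 3 hk)
  linear_combination k * e3 - (4 * y * evL (5 * w) t z (pder lK7)) * hx' - (t - 5) * hy' +
    (8 * y) * i2 - (y' * k ^ 3) * hμ

end field

section poly

variable {R : Type*} [CommRing R] {w t u : R}

theorem hwC (hw : 5 * w ^ 2 = 1) : 5 * (C w : R[X]) ^ 2 = 1 := by
  have := congrArg (C : R → R[X]) hw
  rw [C_mul, C_pow, map_ofNat, C_1] at this
  exact this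

theorem htC (ht : t ^ 2 = -3) : (C t : R[X]) ^ 2 = -3 := by
  rw [← C_pow, ht, C_neg, map_ofNat]

theorem C5w (w : R) : (C (5 * w) : R[X]) = 5 * C w := by rw [C_mul, map_ofNat]

theorem fz_eq (hw : 5 * w ^ 2 = 1) (t : R) : C 5 * fz (16 + 36 * w) = PX (5 * w) t lF := by
  unfold PX
  rw [C5w, evF (hwC hw) X]
  unfold fz
  simp only [C_add, C_mul, C_pow, map_ofNat]

theorem cop7 (hw : 5 * w ^ 2 = 1) (ht : t ^ 2 = -3) (hu : 144 * u = 1) :
    IsCoprime (PX (5 * w) t lN7) (PX (5 * w) t lK7) := by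
  have e := id4 (hwC hw) (htC ht) (X : R[X])
  rw [← C5w] at e
  refine cop_of (U := PX (5 * w) t lU7) (V := PX (5 * w) t lV7) (c := 509607936)
    (ci := 2 ^ 3 * 3 ^ 7 * u ^ 6) ?_ ?_
  · have h4 : (144 * u) ^ 6 = 1 := by rw [hu, one_pow]
    linear_combination h4
  · rw [map_ofNat]; exact e

theorem cop19 (hw : 5 * w ^ 2 = 1) (ht : t ^ 2 = -3) (hu : 144 * u = 1) :
    IsCoprime (PX (5 * w) t lN19) (PX (5 * w) t lK19) := by
  have e := id6 (hwC hw) (htC ht) (X : R[X])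
  rw [← C5w] at e
  refine cop_of (U := PX (5 * w) t lU19) (V := PX (5 * w) t lV19) (c := 344649238497994142121984)
    (ci := 3 ^ 14 * u ^ 14) ?_ ?_
  · have h4 : (144 * u) ^ 14 = 1 := by rw [hu, one_pow]
    linear_combination h4
  · rw [map_ofNat]; exact e

end poly

end Pool.Agent.H35.Q75
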