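import Pool.Agent.H35.Q75.G1

/-!
The lattice of isogenies between the two conjugate curves.
-/

set_option autoImplicit false
set_option linter.unusedSectionVars false
set_option linter.unusedSimpArgs false
set_option linter.unusedVariables false

namespace Pool.Agent.H35.Q75

open WeierstrassCurve Polynomial
open Pool.Agent.H475R2 (EW Rep XR Om Dn dsc fx dfx eq_of_nonsing nonsing_iff add_ne neg_some'
  coprime_X_sub_C exists_ff dn_of zsmul_pm order3')
open Pool.Agent.H35.Q51 (om_of_x phi3 cop_of fz fh nf3 nf3_pos lattice2 ode_of_rep2)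

section points

variable {R : Type*} [CommRing R] [IsDomain R] [CharZero R] {w t u : R}
variable {L : Type*} [Field L] [DecidableEq L] {ι : R[X] →+* L}

theorem ι5w (ι : R[X] →+* L) (w : R) : ι (C (5 * w)) = 5 * ι (C w) := by
  rw [C5w, map_mul, map_ofNat]

theorem ι_P (ι : R[X] →+* L) (w t : R) (l : PL) :
    ι (PX (5 * w) t l) = evL (5 * ι (C w)) (ι (C t)) (ι X) l := by
  rw [ι_PX, ι5w]

theorem ιw (hw : 5 * w ^ 2 = 1) : 5 * (ι (C w)) ^ 2 = 1 := by
  rw [← map_pow]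
  have : ι (5 * (C w) ^ 2) = 1 := by rw [hwC hw, map_one]
  rw [map_mul, map_ofNat] at this
  exact this

theorem ιt (ht : t ^ 2 = -3) : (ι (C t)) ^ 2 = -3 := by
  rw [← map_pow, htC ht, map_neg, map_ofNat]

theorem ιu (hu : 144 * u = 1) : 144 * ι (C u) = 1 := by
  have := congrArg (fun z => ι (C z)) hu
  simp only [C_mul, map_mul, map_ofNat, map_one] at this
  exact this

theorem degKsq (s t c : R) (l : PL) {n : ℕ} (h : l.length ≤ n + 1) :
    (C c * PX s t l ^ 2).natDegree ≤ 2 * n := by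
  refine (natDegree_C_mul_le _ _).trans ?_
  refine natDegree_pow_le.trans ?_
  exact Nat.mul_le_mul_left 2 (PX_natDegree s t l h)

/-- representation of the isogeny of degree seven -/
theorem rep7 (hι : Function.Injective ι) (hw : 5 * w ^ 2 = 1) (ht : t ^ 2 = -3) (hu : 144 * u = 1)
    {A B G x' y' y0 : L} {h' : (EW A B G).Nonsingular x' y'} {h0 : (EW A B G).Nonsingular 0 y0}
    (hx : x' * evL (5 * ι (C w)) (ι (C t)) (ι X) lK7 ^ 2 =
      4 * evL (5 * ι (C w)) (ι (C t)) (ι X) lN7) :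
    Rep ι (Affine.Point.some x' y' h') (Affine.Point.some 0 y0 h0) 7 := by
  have h25 : w ^ 4 * 25 = 1 := by linear_combination (5 * w ^ 2 + 1) * hw
  have uw : IsUnit (w ^ 4) := IsUnit.of_mul_eq_one 25 h25
  have u36 : IsUnit (36 * u * w ^ 4) := (IsUnit.of_mul_eq_one 4 (by linear_combination hu)).mul uw
  have h4 : ι (C (36 * u)) * 4 = 1 := by
    have := ιu (ι := ι) hu
    simp only [C_mul, map_mul, map_ofNat, map_one]
    linear_combination this
  have hd : (C (w ^ 4) * PX (5 * w) t lN7).natDegree ≤ 7 :=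
    (natDegree_C_mul_le _ _).trans (PX_natDegree _ t _ (by decide))
  have hc : (C (w ^ 4) * PX (5 * w) t lN7).coeff 7 = 1 := by
    rw [coeff_C_mul, PX_coeff, show lN7.getD 7 ⟨0, 0, 0, 0⟩ = ⟨25, 0, 0, 0⟩ from rfl]
    unfold Z4.ev
    push_cast
    linear_combination h25
  refine ⟨C (w ^ 4) * PX (5 * w) t lN7, C (36 * u * w ^ 4) * PX (5 * w) t lK7 ^ 2,
    monic_of_natDegree_le_of_coeff_eq_one 7 hd hc,
    natDegree_eq_of_le_of_coeff_ne_zero hd (by rw [hc]; exact one_ne_zero), ?_, ?_, ?_, ?_⟩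
  · exact lt_of_le_of_lt (degKsq _ t _ _ (n := 3) (by decide)) (by norm_num)
  · exact (isCoprime_mul_unit_left_left (isUnit_C.2 uw) _ _).2
      ((isCoprime_mul_unit_left_right (isUnit_C.2 u36) _ _).2 ((cop7 hw ht hu).pow_right))
  · show ι (C (w ^ 4) * PX (5 * w) t lN7) = x' * ι (C (36 * u * w ^ 4) * PX (5 * w) t lK7 ^ 2)
    rw [map_mul, map_mul, map_pow ι (PX (5 * w) t lK7) 2, ι_P, ι_P, C_mul (a := 36 * u), map_mul]
    linear_combination (-(ι (C (36 * u))) * ι (C (w ^ 4))) * hx -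
      (evL (5 * ι (C w)) (ι (C t)) (ι X) lN7 * ι (C (w ^ 4))) * h4
  · show ι (C (eval 0 (C (w ^ 4) * PX (5 * w) t lN7))) = 0 * _
    have : eval 0 (PX (5 * w) t lN7) = 0 := by
      unfold lN7; rw [PX_eval_zero]; simp [Z4.ev]
    rw [eval_mul, this, mul_zero, map_zero, map_zero, zero_mul]

theorem rep3 (hι : Function.Injective ι) (hw : 5 * w ^ 2 = 1) (ht : t ^ 2 = -3) (hu : 144 * u = 1)
    {A B G x' y' : L} {h' : (EW A B G).Nonsingular x' y'}
    (hx : 3 * (ι X) ^ 2 * x' = -((ι X) ^ 3 + 48 * (ι X) ^ 2 + 24 * (16 + 36 * ι (C w)) * (ι X) +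
      4 * (16 + 36 * ι (C w)) ^ 2)) :
    Rep ι (Affine.Point.some x' y' h' : (EW A B G).Point) 0 3 := by
  have u3 : IsUnit (-3 * w ^ 2 * 5 : R) := IsUnit.of_mul_eq_one (-(48 * u)) (by
    linear_combination hu + (144 * u) * hw)
  have hw' := ιw (ι := ι) hw
  have hd : (C (w ^ 2) * PX (5 * w) t lN3).natDegree ≤ 3 :=
    (natDegree_C_mul_le _ _).trans (PX_natDegree _ t _ (by decide))
  have hc : (C (w ^ 2) * PX (5 * w) t lN3).coeff 3 = 1 := by
    rw [coeff_C_mul, PX_coeff, show lN3.getD 3 ⟨0, 0, 0, 0⟩ = ⟨5, 0, 0, 0⟩ from rfl]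
    unfold Z4.ev
    push_cast
    linear_combination hw
  have uw : IsUnit (w ^ 2) := IsUnit.of_mul_eq_one 5 (by linear_combination hw)
  refine ⟨C (w ^ 2) * PX (5 * w) t lN3, C (-3 * w ^ 2 * 5) * X ^ 2,
    monic_of_natDegree_le_of_coeff_eq_one 3 hd hc,
    natDegree_eq_of_le_of_coeff_ne_zero hd (by rw [hc]; exact one_ne_zero), ?_, ?_, ?_, ?_⟩
  · exact lt_of_le_of_lt (natDegree_C_mul_X_pow_le _ _) (by decide)
  · refine (isCoprime_mul_unit_left_left (isUnit_C.2 uw) _ _).2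
      ((isCoprime_mul_unit_left_right (isUnit_C.2 u3) _ _).2 (IsCoprime.pow_right ?_))
    have c1 := coprime_X_sub_C (N := PX (5 * w) t lN3) (a := 0) (by
      unfold lN3
      rw [PX_eval_zero]
      refine IsUnit.of_mul_eq_one ((161 - 72 * (5 * w)) * (4 * 3 ^ 4 * u ^ 2)) ?_
      have h4 : (144 * u) ^ 2 = 1 := by rw [hu, one_pow]
      unfold Z4.ev
      push_cast
      linear_combination h4 - (64 * 5184 * 4 * 81 * 5 * u ^ 2) * hw)
    rwa [C_0, sub_zero] at c1
  · show ι (C (w ^ 2) * PX (5 * w) t lN3) = x' * ι (C (-3 * w ^ 2 * 5) * X ^ 2)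
    rw [map_mul, ι_P, evN3 hw', map_mul, map_pow]
    simp only [C_mul, C_neg, map_mul, map_neg, map_ofNat, C_pow, map_pow]
    linear_combination (5 * ι (C w) ^ 2) * hx
  · show ι (C (eval 0 (C (-3 * w ^ 2 * 5) * X ^ 2))) = 0
    simp

end points

theorem dsc_unit {S : Type*} [CommRing S] {w u : S} (hw : 5 * w ^ 2 = 1) (hu : 144 * u = 1) :
    IsUnit (dsc (C 36) (C (12 * (16 + 36 * w))) (C ((16 + 36 * w) ^ 2)) : S[X]) := by
  have h1 : dsc (C 36) (C (12 * (16 + 36 * w))) (C ((16 + 36 * w) ^ 2)) =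
      C (16 * 27 * (16 + 36 * w) ^ 3 * (16 - 36 * w)) := by
    unfold dsc
    simp only [map_mul, map_pow, map_ofNat, map_sub, map_add]
    ring
  rw [h1]
  apply isUnit_C.2
  have u3 : IsUnit (3 : S) := IsUnit.of_mul_eq_one (48 * u) (by linear_combination hu)
  have u2 : IsUnit (2 : S) := IsUnit.of_mul_eq_one (72 * u) (by linear_combination hu)
  have e1 : (16 + 36 * w) * (16 - 36 * w) = -16 * w ^ 2 := by linear_combination (-256 : S) * hw
  have uw : IsUnit w := IsUnit.of_mul_eq_one (5 * w) (by linear_combination hw)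
  have u16 : IsUnit (-16 * w ^ 2 : S) :=
    (IsUnit.of_mul_eq_one (-(9 * u)) (by linear_combination hu)).mul (uw.pow 2)
  have ua : IsUnit (16 + 36 * w) := by
    rw [← e1] at u16; exact isUnit_of_mul_isUnit_left u16
  have ub : IsUnit (16 - 36 * w) := by
    rw [← e1] at u16; exact isUnit_of_mul_isUnit_right u16
  have e3 : (16 * 27 : S) = 2 ^ 4 * 3 ^ 3 := by norm_num
  rw [e3]
  exact (((u2.pow 4).mul (u3.pow 3)).mul (ua.pow 3)).mul ub

end Pool.Agent.H35.Q75
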