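import Pool.Agent.H35.Q75.G2

/-!
The lattice of isogenies between the two conjugate curves: conclusion.
-/

set_option autoImplicit false
set_option linter.unusedSectionVars false
set_option linter.unusedSimpArgs false
set_option linter.unusedVariables false

namespace Pool.Agent.H35.Q75

open WeierstrassCurve Polynomial
open Pool.Agent.H475R2 (EW Rep XR Om Dn dsc fx dfx eq_of_nonsing nonsing_iff add_ne neg_some'
  coprime_X_sub_C exists_ff dn_of zsmul_pm order3')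
open Pool.Agent.H35.Q51 (om_of_x phi3 cop_of fz fh nf3 nf3_pos lattice2 ode_of_rep2)

universe w1

variable {R : Type w1} [CommRing R] [IsDomain R] [CharZero R] {w t u : R}

theorem hom_lattice (hw : 5 * w ^ 2 = 1) (ht : t ^ 2 = -3) (hu : 144 * u = 1) (i j : ℤ)
    (hij : i ≠ 0 ∨ j ≠ 0) :
    ∃ N D : R[X], N.Monic ∧ N.natDegree = (nf3 3 3 7 i j).toNat ∧
      D.natDegree < (nf3 3 3 7 i j).toNat ∧ IsCoprime N D ∧
      fz (16 + 36 * w) * (derivative N * D - N * derivative D) ^ 2 =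
        C (i * t + j * ((t - 5) * (72 * u))) ^ 2 * D * fh (16 - 36 * w) N D ∧
      (¬ (3 : ℤ) ∣ j → N.eval 0 = 0) := by
  classical
  obtain ⟨L, iL, ι, y, d, hι, hy, h1, h2, h3, h4⟩ := exists_ff (36 : R) (12 * (16 + 36 * w))
    ((16 + 36 * w) ^ 2)
  have h20 : (2 : L) ≠ 0 := by
    have : ι (C (2 : R)) ≠ 0 := by
      rw [Ne, map_eq_zero_iff ι hι]
      exact C_ne_zero.2 two_ne_zero
    rwa [map_ofNat, map_ofNat] at this
  have h30 : (3 : L) ≠ 0 := by
    have : ι (C (3 : R)) ≠ 0 := by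
      rw [Ne, map_eq_zero_iff ι hι]
      exact C_ne_zero.2 (by norm_num)
    rwa [map_ofNat, map_ofNat] at this
  have h50 : (5 : L) ≠ 0 := by
    have : ι (C (5 : R)) ≠ 0 := by
      rw [Ne, map_eq_zero_iff ι hι]
      exact C_ne_zero.2 (by norm_num)
    rwa [map_ofNat, map_ofNat] at this
  have h2u : 2 * (72 * u) = 1 := by linear_combination hu
  have hs := hs5 hw
  have hy' := hy
  obtain ⟨W, hW⟩ : ∃ W : L, W = ι (C w) := ⟨_, rfl⟩
  obtain ⟨T, hT⟩ : ∃ T : L, T = ι (C t) := ⟨_, rfl⟩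
  obtain ⟨z, hz⟩ : ∃ z : L, z = ι X := ⟨_, rfl⟩
  have hw' : 5 * W ^ 2 = 1 := by rw [hW]; exact ιw hw
  have ht' : T ^ 2 = -3 := by rw [hT]; exact ιt ht
  have htn : (-t) ^ 2 = -3 := by rw [neg_sq, ht]
  have hTn : ι (C (-t)) = -T := by rw [C_neg, map_neg, hT]
  have evP : ∀ l : PL, ι (PX (5 * w) t l) = evL (5 * W) T z l := by
    intro l; rw [ι_P, hW, hT, hz]
  have nz : ∀ {l : PL} (k : ℕ) (q' : Z4) (n : ℤ),
      Z4.isz (Z4.add (Z4.mul (l.getD k ⟨0, 0, 0, 0⟩) q') ⟨-n, 0, 0, 0⟩) = true → n ≠ 0 →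
      evL (5 * W) T z l ≠ 0 := by
    intro l k q' n h hn
    rw [← evP, Ne, map_eq_zero_iff ι hι]
    exact PX_ne hs ht k q' n h hn
  have hF0 : evL (5 * W) T z lF ≠ 0 := nz 3 ⟨1, 0, 0, 0⟩ 5 (by decide +kernel) (by norm_num)
  have hyf : y ^ 2 = z ^ 3 + 36 * z ^ 2 + 12 * (16 + 36 * W) * z + (16 + 36 * W) ^ 2 := by
    rw [hy', hz, hW]
    simp only [map_add, map_mul, map_pow, map_ofNat, C_add, C_mul, C_pow]
  have hy0 : y ≠ 0 := by
    intro h
    rw [h] at hyf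
    apply hF0
    rw [evF hw', ← hyf]; ring
  have hz0 : z ≠ 0 := by rw [hz, Ne, map_eq_zero_iff ι hι]; exact X_ne_zero
  have hk0 : evL (5 * W) T z lK7 ≠ 0 := nz 3 ⟨-5, 0, -1, 0⟩ 140 (by decide +kernel) (by norm_num)
  have hm0 : evL (5 * W) T z lM7 ≠ 0 := nz 9 ⟨1, 0, 0, 0⟩ 125 (by decide +kernel) (by norm_num)
  have hm3 : evL (5 * W) T z lM3 ≠ 0 := nz 3 ⟨1, 0, 0, 0⟩ 5 (by decide +kernel) (by norm_num)
  have hkb0 : evL (5 * W) (-T) z lK7 ≠ 0 := by
    have : ι (PX (5 * w) (-t) lK7) ≠ 0 := by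
      rw [Ne, map_eq_zero_iff ι hι]
      exact PX_ne hs htn 3 ⟨-5, 0, -1, 0⟩ 140 (by decide +kernel) (by norm_num)
    rw [ι_P, hTn, ← hW, ← hz] at this
    exact this
  have hm3' : z ^ 3 - 24 * (16 + 36 * W) * z - 8 * (16 + 36 * W) ^ 2 ≠ 0 := by
    intro h
    rw [evM3 hw', h, mul_zero] at hm3
    exact hm3 rfl
  obtain ⟨A', hA'⟩ : ∃ A' : L, A' = ι (C (36 : R)) := ⟨_, rfl⟩
  obtain ⟨B', hB'⟩ : ∃ B' : L, B' = ι (C (12 * (16 - 36 * w))) := ⟨_, rfl⟩
  obtain ⟨G', hG'⟩ : ∃ G' : L, G' = ι (C ((16 - 36 * w) ^ 2)) := ⟨_, rfl⟩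
  have hA'e : A' = 36 := by rw [hA', map_ofNat, map_ofNat]
  have hB'e : B' = 12 * (16 - 36 * W) := by
    rw [hB', hW]; simp only [C_mul, C_sub, map_mul, map_sub, map_ofNat]
  have hG'e : G' = (16 - 36 * W) ^ 2 := by
    rw [hG', hW]; simp only [C_mul, C_sub, C_pow, map_mul, map_sub, map_ofNat, map_pow]
  have hd : Dn A' B' G' d := by rw [hA', hB', hG']; exact dn_of h1 h2 h3
  have dC : ∀ r : R, d (ι (C r)) = 0 := by intro r; rw [h3]; simp
  -- the generic point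
  have hGs : (EW (36 : L) (12 * (16 + 36 * W)) ((16 + 36 * W) ^ 2)).Nonsingular z y :=
    (nonsing_iff h20 _ _).2 ⟨by rw [hyf]; rfl, Or.inl hy0⟩
  obtain ⟨x3, y3, hn3, ex3, ey3, y30, om3⟩ := phi3 (A' := A') (B' := B') (G' := G')
    (β := 16 + 36 * W) (β' := 16 - 36 * W) (t := T) h20 h30 rfl rfl rfl (by ring) hA'e hB'e hG'e ht'
    hz0 hm3' hy0 hGs
  have dz : d z = 2 * y * 1 := by rw [hz, h3]; simp
  have dβ : d (16 + 36 * W) = 0 := by
    have : (16 + 36 * W : L) = ι (C (16 + 36 * w)) := by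
      rw [hW]; simp only [C_mul, C_add, map_mul, map_add, map_ofNat]
    rw [this, dC]
  have hom3 : Om d (ι (C t)) (Affine.Point.some x3 y3 hn3 : (EW A' B' G').Point) := by
    have := om3 d 1 hd dβ (by rw [hT]; exact dC t) dz
    rwa [mul_one, hT] at this
  have dP : ∀ l : PL, d (evL (5 * W) T z l) = 2 * y * evL (5 * W) T z (pder l) := by
    intro l; rw [← evP, h3, PX_der, evP]
  have hμ : 2 * ι (C ((t - 5) * (72 * u))) = T - 5 := by
    have e := congrArg (fun r => ι (C r)) (show 2 * ((t - 5) * (72 * u)) = t - 5 by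
      linear_combination (t - 5) * h2u)
    simp only [C_mul (a := (2 : R)), map_mul ι, map_ofNat, C_sub, map_sub] at e
    rw [e, hT]
  obtain ⟨x5, y5, hn5, ex5, ey5, y50, om5'⟩ := psi7 (μ := ι (C ((t - 5) * (72 * u)))) h20 hw' ht' hA'e
    hB'e hG'e hyf hy0 hk0 hm0 hd (dP _) (dP _) hμ
  have hom5 : Om d (ι (C ((t - 5) * (72 * u)))) (Affine.Point.some x5 y5 hn5 : (EW A' B' G').Point) :=
    om_of_x hd h20 hn5 y50 om5'
  -- the marked point
  have e16 : (16 + 36 * w) * (16 - 36 * w) = -16 * w ^ 2 := by linear_combination (-256 : R) * hw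
  have w0 : w ≠ 0 := by
    rintro rfl
    norm_num at hw
  have hβ'0 : (16 - 36 * w) ≠ 0 := by
    intro h
    rw [h, mul_zero] at e16
    have : (-16 : R) * w ^ 2 ≠ 0 := mul_ne_zero (by norm_num) (pow_ne_zero 2 w0)
    exact this e16.symm
  have hY0 : (16 - 36 * W : L) ≠ 0 := by
    have : (16 - 36 * W : L) = ι (C (16 - 36 * w)) := by
      rw [hW]; simp only [C_mul, C_sub, map_mul, map_sub, map_ofNat]
    rw [this, Ne, map_eq_zero_iff ι hι]
    exact C_ne_zero.2 hβ'0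
  have hM0 : (EW A' B' G').Nonsingular 0 (16 - 36 * W) :=
    (nonsing_iff h20 _ _).2 ⟨by unfold fx; rw [hG'e]; ring, Or.inl hY0⟩
  have hM3 : (3 : ℤ) • (Affine.Point.some 0 (16 - 36 * W) hM0 : (EW A' B' G').Point) = 0 :=
    order3' (l := 6) h20 hY0 (by unfold dfx; rw [hB'e]; ring) (by rw [hA'e]; ring) hM0
  -- representations
  have R3 : Rep ι (Affine.Point.some x3 y3 hn3 : (EW A' B' G').Point) 0 (3 : ℤ).toNat :=
    rep3 hι hw ht hu (by rw [← hz, ← hW]; exact ex3)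
  have R5 : Rep ι (Affine.Point.some x5 y5 hn5 : (EW A' B' G').Point)
      (Affine.Point.some 0 (16 - 36 * W) hM0) (7 : ℤ).toNat :=
    rep7 hι hw ht hu (by rw [← hz, ← hW, ← hT]; exact ex5)
  have eN3 : -(15 * z ^ 2 * x3) = evL (5 * W) T z lN3 := by
    rw [evN3 hw']; linear_combination (-5 : L) * ex3
  have eM3 : T * y * evL (5 * W) T z lM3 = 45 * z ^ 3 * y3 := by
    rw [evM3 hw']; linear_combination (-5 : L) * ey3
  have hH3 : evL (5 * W) T z lN3 * evL (5 * W) T z lK7 ^ 2 + 60 * z ^ 2 * evL (5 * W) T z lN7 ≠ 0 := by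
    have h9 : (C (1 : R)) * PX (5 * w) t (padd (pmul lN3 (pmul lK7 lK7)) (⟨0, 0, 0, 0⟩ :: ⟨0, 0, 0, 0⟩ ::
        pscal ⟨60, 0, 0, 0⟩ lN7)) ≠ 0 := by
      rw [C_1, one_mul]
      exact PX_ne hs ht 9 ⟨17, 0, 5, 0⟩ 91000 (by decide +kernel) (by norm_num)
    rw [C_1, one_mul] at h9
    have h10 : ι (PX (5 * w) t (padd (pmul lN3 (pmul lK7 lK7)) (⟨0, 0, 0, 0⟩ :: ⟨0, 0, 0, 0⟩ ::
        pscal ⟨60, 0, 0, 0⟩ lN7))) ≠ 0 := by
      rwa [Ne, map_eq_zero_iff ι hι]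
    rw [evP] at h10
    simp only [evL_padd, evL_pmul z (hs5 hw') ht', evL_pscal z (hs5 hw') ht', evL, Z4.ev] at h10
    push_cast at h10
    intro h0
    apply h10
    linear_combination h0
  have R5b : Rep ι ((Affine.Point.some x3 y3 hn3 : (EW A' B' G').Point) - Affine.Point.some x5 y5 hn5)
      (0 - Affine.Point.some 0 (16 - 36 * W) hM0) (nf3 3 3 7 1 (-1)).toNat := by
    obtain ⟨h', en⟩ := neg_some' hn5
    have hxne : x3 ≠ x5 := by
      intro hx
      apply hH3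
      rw [← eN3, hx]
      linear_combination (-(15 * z ^ 2)) * ex5
    obtain ⟨X3, Y3, l, hh3, e3, hl, hX3, -⟩ := add_ne hn3 h' hxne
    obtain ⟨h0', en0⟩ := neg_some' hM0
    rw [sub_eq_add_neg, en, e3, zero_sub, en0]
    have h5 : (nf3 3 3 7 1 (-1)).toNat = 7 := by decide
    rw [h5]
    refine rep7 (t := -t) hι hw htn hu ?_
    rw [hTn, ← hW, ← hz]
    -- the formula
    have id := id3 hw' ht' z
    rw [← hyf] at id
    generalize evL (5 * W) (-T) z lK7 = kb at *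
    generalize evL (5 * W) (-T) z lN7 = nb at *
    generalize evL (5 * W) T z lK7 = k at *
    generalize evL (5 * W) T z lN7 = n at *
    generalize evL (5 * W) T z lM7 = m at *
    generalize evL (5 * W) T z lN3 = n3 at *
    generalize evL (5 * W) T z lM3 = m3 at *
    have eH : n3 * k ^ 2 + 60 * z ^ 2 * n = -(15 * z ^ 2 * k ^ 2) * (x3 - x5) := by
      rw [← eN3]
      linear_combination (-(15 * z ^ 2)) * ex5
    have eI : y * (T * (m3 * k ^ 3) + 360 * (z ^ 3 * m)) = 45 * z ^ 3 * k ^ 3 * (y3 + y5) := by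
      linear_combination (k ^ 3) * eM3 - (45 * z ^ 3) * ey5
    have hl' : l * (x3 - x5) = y3 + y5 := by rw [hl]; ring
    have q1 : 5 * y ^ 2 * ((T * (m3 * k ^ 3) + 360 * (z ^ 3 * m)) ^ 2 * kb ^ 2) =
        5 * (45 * z ^ 3 * k ^ 3 * (l * (x3 - x5))) ^ 2 * kb ^ 2 := by
      rw [hl', ← eI]; ring
    rw [q1, eH] at id
    have h225 : (225 : L) ≠ 0 := by
      rw [show (225 : L) = 3 ^ 2 * 5 ^ 2 by norm_num]
      exact mul_ne_zero (pow_ne_zero _ h30) (pow_ne_zero _ h50)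
    have h45 : (45 : L) ≠ 0 := by
      rw [show (45 : L) = 3 ^ 2 * 5 by norm_num]
      exact mul_ne_zero (pow_ne_zero _ h30) h50
    have hne : 225 * z ^ 4 * k ^ 4 * (x3 - x5) ^ 2 ≠ 0 :=
      mul_ne_zero (mul_ne_zero (mul_ne_zero h225 (pow_ne_zero _ hz0)) (pow_ne_zero _ hk0))
        (pow_ne_zero _ (sub_ne_zero.2 hxne))
    have q2 : 45 * z ^ 2 * k ^ 2 * l ^ 2 * kb ^ 2 =
        180 * z ^ 2 * k ^ 2 * nb + 1620 * z ^ 2 * k ^ 2 * kb ^ 2 - 3 * n3 * k ^ 2 * kb ^ 2 +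
        180 * z ^ 2 * n * kb ^ 2 := by
      apply mul_left_cancel₀ hne
      linear_combination id
    have h9k : 45 * z ^ 2 * k ^ 2 ≠ 0 :=
      mul_ne_zero (mul_ne_zero h45 (pow_ne_zero _ hz0)) (pow_ne_zero _ hk0)
    apply mul_left_cancel₀ h9k
    rw [hX3, hA'e]
    linear_combination q2 + (3 * k ^ 2 * kb ^ 2) * eN3 - (45 * z ^ 2 * kb ^ 2) * ex5
  -- the points do not vanish
  have ho : ∀ i j : ℤ, Om d (ι (C ((i : R) * t + j * ((t - 5) * (72 * u)))))
      (i • (Affine.Point.some x3 y3 hn3 : (EW A' B' G').Point) + j • Affine.Point.some x5 y5 hn5) := by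
    intro i j
    have e : ι (C ((i : R) * t + j * ((t - 5) * (72 * u)))) =
      (i : L) * ι (C t) + (j : L) * ι (C ((t - 5) * (72 * u))) := by
      rw [C_add, C_mul (a := (i : R)), C_mul (a := (j : R)), map_add, map_mul ι (C (i : R)),
        map_mul ι (C (j : R))]
      simp
    rw [e]
    exact Om.add h20 hd (Om.zsmul h20 hd hom3 i) (Om.zsmul h20 hd hom5 j)
  have hα : ∀ i j : ℤ, (i ≠ 0 ∨ j ≠ 0) → (i : R) * t + j * ((t - 5) * (72 * u)) ≠ 0 := by
    intro i j hij h0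
    have h5 : ((nf3 3 3 7 i j : ℤ) : R) = 0 := by
      unfold nf3
      push_cast
      linear_combination (-(i * t + j * ((t + 5) * (72 * u)))) * h0 +
        ((i : R) ^ 2 + i * j * (144 * u) + j ^ 2 * (72 * u) ^ 2) * ht -
        (3 * i * j) * hu - (7 * j ^ 2 * (144 * u + 1)) * hu
    have h6 := nf3_pos (a := 3) (t := 3) (n := 7) (by norm_num) (by norm_num) hij
    have h7 : nf3 3 3 7 i j = 0 := by exact_mod_cast h5
    omega
  have hnz : ∀ i j : ℤ, (i ≠ 0 ∨ j ≠ 0) →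
      i • (Affine.Point.some x3 y3 hn3 : (EW A' B' G').Point) + j • Affine.Point.some x5 y5 hn5 ≠ 0 := by
    intro i j hij h0
    have := ho i j
    rw [h0] at this
    have h' : ι (C ((i : R) * t + j * ((t - 5) * (72 * u)))) = 0 := this
    have h'' : C ((i : R) * t + j * ((t - 5) * (72 * u))) = 0 := by apply hι; rw [h', map_zero]
    exact hα i j hij (C_eq_zero.1 h'')
  have hΔ : IsUnit (dsc (C 36) (C (12 * (16 - 36 * w))) (C ((16 - 36 * w) ^ 2)) : R[X]) := by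
    have := dsc_unit (w := -w) (by rw [neg_sq, hw]) hu
    have e : (16 + 36 * -w) = 16 - 36 * w := by ring
    rwa [e] at this
  subst hA' hB' hG'
  obtain ⟨N, D, mN, dN, dD, cc, x1, x2⟩ := lattice2 hι h20 hΔ (a := 3) (t := 3) (n := 7) (by norm_num)
    (by norm_num) R3 R5 R5b hnz i j hij
  refine ⟨N, D, mN, dN, dD, cc, ?_, ?_⟩
  · have hy2 : y ^ 2 = ι (fz (16 + 36 * w)) := hy'
    exact ode_of_rep2 hι h20 hy2 h1 h2 h3 x1 (hnz i j hij) (ho i j)
  · intro h3j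
    rw [smul_zero, zero_add] at x2
    have e : ι (C (N.eval 0)) = 0 := by
      rcases zsmul_pm hM3 h3j with h | h
      · rw [h] at x2
        have : ι (C (N.eval 0)) = 0 * ι (C (D.eval 0)) := x2
        rw [this, zero_mul]
      · rw [h] at x2
        have hx' := x2.neg
        rw [neg_neg] at hx'
        have : ι (C (N.eval 0)) = 0 * ι (C (D.eval 0)) := hx'
        rw [this, zero_mul]
    rw [map_eq_zero_iff ι hι] at e
    exact C_eq_zero.1 e

end Pool.Agent.H35.Q75
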