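import Pool.Agent.H35.Q75.P1

/-!
Verification of identities between polynomials with coefficients in `ℤ[√5, √-3]` by evaluation at one
large integer.
-/

set_option autoImplicit false
set_option linter.unusedSectionVars false
set_option linter.unusedSimpArgs false
set_option linter.unusedVariables false

namespace Pool.Agent.H35.Q75

namespace Z4

/-- a submultiplicative size -/
def sz (x : Z4) : ℕ := x.a.natAbs + 3 * x.b.natAbs + 2 * x.c.natAbs + 6 * x.d.natAbs

theorem sz_neg (x : Z4) : sz (neg x) = sz x := by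
  unfold sz neg; simp

theorem sz_add (x y : Z4) : sz (add x y) ≤ sz x + sz y := by
  unfold sz add
  have h1 := Int.natAbs_add_le x.a y.a
  have h2 := Int.natAbs_add_le x.b y.b
  have h3 := Int.natAbs_add_le x.c y.c
  have h4 := Int.natAbs_add_le x.d y.d
  simp only
  omega

theorem sz_mul (x y : Z4) : sz (mul x y) ≤ sz x * sz y := by
  unfold sz mul
  simp only
  zify
  have tri : ∀ u v w k : ℤ, |u + v - w - k| ≤ |u| + |v| + |w| + |k| := by
    intro u v w k
    have e1 := abs_sub (u + v - w) k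
    have e2 := abs_sub (u + v) w
    have e3 := abs_add_le u v
    linarith
  have tri3 : ∀ u v w : ℤ, |u + v - w| ≤ |u| + |v| + |w| := by
    intro u v w
    have e2 := abs_sub (u + v) w
    have e3 := abs_add_le u v
    linarith
  have tri4 : ∀ u v w k : ℤ, |u + v + w + k| ≤ |u| + |v| + |w| + |k| := by
    intro u v w k
    have e1 := abs_add_le (u + v + w) k
    have e2 := abs_add_le (u + v) w
    have e3 := abs_add_le u v
    linarith
  have h1 := tri (x.a * y.a) (5 * (x.b * y.b)) (3 * (x.c * y.c)) (15 * (x.d * y.d))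
  have h2 := tri3 (x.a * y.b) (x.b * y.a) (3 * (x.c * y.d + x.d * y.c))
  have h3 := tri3 (x.a * y.c) (x.c * y.a) (-(5 * (x.b * y.d + x.d * y.b)))
  have h4 := tri4 (x.a * y.d) (x.d * y.a) (x.b * y.c) (x.c * y.b)
  have h5 := abs_add_le (x.c * y.d) (x.d * y.c)
  have h6 := abs_add_le (x.b * y.d) (x.d * y.b)
  rw [sub_neg_eq_add, abs_neg] at h3
  simp only [abs_mul] at h1 h2 h3 h4 h5 h6
  norm_num at h1 h2 h3
  have pa := abs_nonneg x.a
  have pb := abs_nonneg x.b
  have pc := abs_nonneg x.c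
  have pd := abs_nonneg x.d
  have qa := abs_nonneg y.a
  have qb := abs_nonneg y.b
  have qc := abs_nonneg y.c
  have qd := abs_nonneg y.d
  generalize |x.a| = A at *
  generalize |x.b| = B at *
  generalize |x.c| = C at *
  generalize |x.d| = D at *
  generalize |y.a| = A' at *
  generalize |y.b| = B' at *
  generalize |y.c| = C' at *
  generalize |y.d| = D' at *
  have m1 := mul_nonneg pb qb
  have m2 := mul_nonneg pc qc
  have m3 := mul_nonneg pd qd
  have m4 := mul_nonneg pc qd
  have m5 := mul_nonneg pd qc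
  have m6 := mul_nonneg pb qd
  have m7 := mul_nonneg pd qb
  have m8 := mul_nonneg pb qc
  have m9 := mul_nonneg pc qb
  nlinarith

/-- powers -/
def pw (x : Z4) : ℕ → Z4
  | 0 => ⟨1, 0, 0, 0⟩
  | n + 1 => mul x (pw x n)

end Z4

/-- size of a list -/
def lsz : PL → ℕ
  | [] => 0
  | a :: l => a.sz + lsz l

theorem lsz_padd (l m : PL) : lsz (padd l m) ≤ lsz l + lsz m := by
  induction l generalizing m with
  | nil => simp [padd, lsz]
  | cons a l ih =>
    cases m with
    | nil => simp [padd, lsz]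
    | cons b m =>
      simp only [padd, lsz]
      have h1 := Z4.sz_add a b
      have h2 := ih m
      omega

theorem lsz_pneg (l : PL) : lsz (pneg l) = lsz l := by
  induction l with
  | nil => simp [pneg, lsz]
  | cons a l ih =>
    unfold pneg at ih ⊢
    simp only [List.map_cons, lsz, Z4.sz_neg, ih]

theorem lsz_pscal (q : Z4) (l : PL) : lsz (pscal q l) ≤ q.sz * lsz l := by
  induction l with
  | nil => simp [pscal, lsz]
  | cons a l ih =>
    unfold pscal at ih ⊢
    simp only [List.map_cons, lsz]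
    have h1 := Z4.sz_mul q a
    rw [mul_add]
    omega

theorem lsz_pmul (l m : PL) : lsz (pmul l m) ≤ lsz l * lsz m := by
  induction l with
  | nil => simp [pmul, lsz]
  | cons a l ih =>
    simp only [pmul, lsz]
    have h1 := lsz_padd (pscal a m) (⟨0, 0, 0, 0⟩ :: pmul l m)
    have h2 := lsz_pscal a m
    simp only [lsz, Z4.sz] at h1
    rw [add_mul]
    simp at h1
    omega

/-- expressions -/
inductive Ex where
  | li (l : PL)
  | add (a b : Ex)
  | mul (a b : Ex)
  | neg (a : Ex)
  | pow (a : Ex) (n : ℕ)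

namespace Ex

/-- the polynomial of an expression -/
def pl : Ex → PL
  | li l => l
  | add a b => padd a.pl b.pl
  | mul a b => pmul a.pl b.pl
  | neg a => pneg a.pl
  | pow a n => ppow a.pl n

/-- evaluation -/
def ev {A : Type*} [CommRing A] (s t x : A) : Ex → A
  | li l => evL s t x l
  | add a b => a.ev s t x + b.ev s t x
  | mul a b => a.ev s t x * b.ev s t x
  | neg a => -a.ev s t x
  | pow a n => a.ev s t x ^ n

/-- Horner evaluation -/
def hor (B : ℤ) : PL → Z4
  | [] => ⟨0, 0, 0, 0⟩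
  | q :: l => ⟨q.a + B * (hor B l).a, q.b + B * (hor B l).b, q.c + B * (hor B l).c,
      q.d + B * (hor B l).d⟩

/-- evaluation at an integer -/
def vB (B : ℤ) : Ex → Z4
  | li l => hor B l
  | add a b => Z4.add (a.vB B) (b.vB B)
  | mul a b => Z4.mul (a.vB B) (b.vB B)
  | neg a => Z4.neg (a.vB B)
  | pow a n => Z4.pw (a.vB B) n

/-- bound for the coefficients -/
def nb : Ex → ℕ
  | li l => lsz l
  | add a b => a.nb + b.nb
  | mul a b => a.nb * b.nb
  | neg a => a.nb
  | pow a n => a.nb ^ n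

theorem nb_le (e : Ex) : lsz e.pl ≤ e.nb := by
  induction e with
  | li l => exact le_refl _
  | add a b ha hb => exact (lsz_padd _ _).trans (Nat.add_le_add ha hb)
  | mul a b ha hb => exact (lsz_pmul _ _).trans (Nat.mul_le_mul ha hb)
  | neg a ha => simp only [pl, nb, lsz_pneg]; exact ha
  | pow a n ha =>
    simp only [pl, nb]
    induction n with
    | zero => simp [ppow, lsz, Z4.sz]
    | succ n ih =>
      simp only [ppow]
      rw [pow_succ, mul_comm]
      exact (lsz_pmul _ _).trans (Nat.mul_le_mul ha ih)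

section

variable {A : Type*} [CommRing A] {s t : A} (hs : s ^ 2 = 5) (ht : t ^ 2 = -3)
include hs ht

theorem ev_pl (x : A) (e : Ex) : e.ev s t x = evL s t x e.pl := by
  induction e with
  | li l => rfl
  | add a b ha hb => simp only [ev, pl, evL_padd, ha, hb]
  | mul a b ha hb => simp only [ev, pl, evL_pmul x hs ht, ha, hb]
  | neg a ha => simp only [ev, pl, evL_pneg, ha]
  | pow a n ha => simp only [ev, pl, evL_ppow x hs ht, ha]

theorem pw_ev (x : Z4) (n : ℕ) : (Z4.pw x n).ev s t = x.ev s t ^ n := by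
  induction n with
  | zero => simp [Z4.pw, Z4.ev]
  | succ n ih => simp only [Z4.pw, Z4.ev_mul hs ht, ih]; ring

omit hs ht in
theorem hor_ev (B : ℤ) (l : PL) : (hor B l).ev s t = evL s t (B : A) l := by
  induction l with
  | nil => simp [hor, evL, Z4.ev]
  | cons q l ih =>
    simp only [evL, ← ih, hor]
    unfold Z4.ev
    push_cast
    ring

theorem vB_ev (B : ℤ) (e : Ex) : (e.vB B).ev s t = e.ev s t (B : A) := by
  induction e with
  | li l => exact hor_ev B l
  | add a b ha hb => simp only [ev, vB, Z4.ev_add, ha, hb]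
  | mul a b ha hb => simp only [ev, vB, Z4.ev_mul hs ht, ha, hb]
  | neg a ha => simp only [ev, vB, Z4.ev_neg, ha]
  | pow a n ha => simp only [ev, vB, pw_ev hs ht, ha]

end

/-- the universal ring -/
abbrev U0 := QuadraticAlgebra (QuadraticAlgebra ℤ 5 0) (-3) 0

theorem indep {x : Z4} (h : x.ev (⟨⟨0, 1⟩, 0⟩ : U0) (⟨0, ⟨1, 0⟩⟩ : U0) = 0) :
    x.a = 0 ∧ x.b = 0 ∧ x.c = 0 ∧ x.d = 0 := by
  have h1 := congrArg (fun z : U0 => z.re.re) h
  have h2 := congrArg (fun z : U0 => z.re.im) h
  have h3 := congrArg (fun z : U0 => z.im.re) h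
  have h4 := congrArg (fun z : U0 => z.im.im) h
  unfold Z4.ev at h1 h2 h3 h4
  simp at h1 h2 h3 h4
  exact ⟨h1, h2, h3, h4⟩

theorem kron {B : ℕ} {l : PL} (hb : lsz l < B) (hz : (hor B l).a = 0 ∧ (hor B l).b = 0 ∧
    (hor B l).c = 0 ∧ (hor B l).d = 0) {A : Type*} [CommRing A] (s t x : A) : evL s t x l = 0 := by
  induction l with
  | nil => rfl
  | cons q l ih =>
    simp only [hor] at hz
    simp only [lsz, Z4.sz] at hb
    have hB : (0 : ℤ) < B := by omega
    have key : ∀ u v : ℤ, u.natAbs < B → u + B * v = 0 → u = 0 ∧ v = 0 := by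
      intro u v hu he
      have h1 : (B : ℤ) ∣ u := ⟨-v, by linear_combination he⟩
      have h2 : u = 0 := Int.eq_zero_of_abs_lt_dvd h1 (by
        rw [Int.abs_eq_natAbs]; exact_mod_cast hu)
      rw [h2, zero_add] at he
      rcases mul_eq_zero.1 he with h | h
      · omega
      · exact ⟨h2, h⟩
    obtain ⟨z1, z2, z3, z4⟩ := hz
    obtain ⟨a1, a2⟩ := key _ _ (by omega) z1
    obtain ⟨b1, b2⟩ := key _ _ (by omega) z2
    obtain ⟨c1, c2⟩ := key _ _ (by omega) z3
    obtain ⟨d1, d2⟩ := key _ _ (by omega) z4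
    have := ih (by omega) ⟨a2, b2, c2, d2⟩
    simp only [evL, this, Z4.ev, a1, b1, c1, d1]
    push_cast
    ring

/-- the check -/
def ok (e : Ex) (B : ℕ) : Bool := (e.vB B).isz && decide (e.nb < B)

theorem sound {e : Ex} {B : ℕ} (h : e.ok B = true) {A : Type*} [CommRing A] {s t : A}
    (hs : s ^ 2 = 5) (ht : t ^ 2 = -3) (x : A) : e.ev s t x = 0 := by
  unfold ok at h
  rw [Bool.and_eq_true, decide_eq_true_iff] at h
  obtain ⟨h1, h2⟩ := h
  rw [ev_pl hs ht]
  apply kron (lt_of_le_of_lt (nb_le e) h2)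
  have hs0 : (⟨⟨0, 1⟩, 0⟩ : U0) ^ 2 = 5 := by
    rw [pow_two]; ext <;> simp [QuadraticAlgebra.re_ofNat, QuadraticAlgebra.im_ofNat]
  have ht0 : (⟨0, ⟨1, 0⟩⟩ : U0) ^ 2 = -3 := by
    rw [pow_two]; ext <;> simp [QuadraticAlgebra.re_ofNat, QuadraticAlgebra.im_ofNat]
  apply indep
  rw [hor_ev, ← ev_pl hs0 ht0, ← vB_ev hs0 ht0, Z4.ev_isz _ _ h1]

end Ex

end Pool.Agent.H35.Q75
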