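import Mathlib

/-!
Cubic residue characters with values in the Eisenstein integers: the value at an auxiliary prime.
-/

set_option autoImplicit false
set_option linter.unusedSectionVars false
set_option linter.unusedSimpArgs false
set_option linter.unusedVariables false

namespace Pool.Agent.H35.Q75

/-- the Eisenstein integers -/
abbrev OE := QuadraticAlgebra ℤ (-1) (-1)

/-- evaluation at a primitive cube root of unity -/
def fO {K : Type*} [CommRing K] (w : K) (hw : w ^ 2 + w + 1 = 0) : OE →+* K where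
  toFun z := (z.re : K) + (z.im : K) * w
  map_one' := by
    rw [QuadraticAlgebra.re_one, QuadraticAlgebra.im_one]; simp
  map_mul' z v := by
    rw [QuadraticAlgebra.re_mul, QuadraticAlgebra.im_mul]
    push_cast
    linear_combination (-((z.im : K) * v.im)) * hw
  map_zero' := by
    rw [QuadraticAlgebra.re_zero, QuadraticAlgebra.im_zero]; simp
  map_add' z v := by
    rw [QuadraticAlgebra.re_add, QuadraticAlgebra.im_add]
    push_cast
    ring

theorem fO_apply {K : Type*} [CommRing K] (w : K) (hw : w ^ 2 + w + 1 = 0) (z : OE) :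
    fO w hw z = (z.re : K) + (z.im : K) * w := rfl

theorem OE_norm (z : OE) : z.norm = z.re ^ 2 - z.re * z.im + z.im ^ 2 := by
  rw [QuadraticAlgebra.norm_def]; ring

theorem OE_norm_zero {z : OE} (h : z.norm = 0) : z = 0 := by
  rw [OE_norm] at h
  have h1 : 3 * z.im ^ 2 + (2 * z.re - z.im) ^ 2 = 0 := by linear_combination 4 * h
  have h2 : z.im = 0 := by nlinarith [sq_nonneg z.im, sq_nonneg (2 * z.re - z.im)]
  rw [h2] at h
  have h3 : z.re = 0 := by
    have : z.re ^ 2 = 0 := by linear_combination h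
    exact pow_eq_zero_iff (by norm_num) |>.1 this
  exact QuadraticAlgebra.ext h3 h2

instance OE_domain : IsDomain OE := by
  have : NoZeroDivisors OE := by
    constructor
    intro z w hzw
    have h := congrArg QuadraticAlgebra.norm hzw
    rw [map_mul, QuadraticAlgebra.norm_zero] at h
    rcases mul_eq_zero.1 h with h | h
    · exact Or.inl (OE_norm_zero h)
    · exact Or.inr (OE_norm_zero h)
  have : Nontrivial OE := by
    refine ⟨0, 1, ?_⟩
    intro h
    have := congrArg QuadraticAlgebra.re h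
    rw [QuadraticAlgebra.re_zero, QuadraticAlgebra.re_one] at this
    exact zero_ne_one this
  exact NoZeroDivisors.to_isDomain _

instance OE_charZero : CharZero OE :=
  charZero_of_injective_algebraMap (R := ℤ) (A := OE) QuadraticAlgebra.algebraMap_injective

theorem OE_units {z : OE} (h : z.norm = 1) :
    z = ⟨1, 0⟩ ∨ z = ⟨-1, 0⟩ ∨ z = ⟨0, 1⟩ ∨ z = ⟨0, -1⟩ ∨ z = ⟨1, 1⟩ ∨ z = ⟨-1, -1⟩ := by
  rw [OE_norm] at h
  obtain ⟨a, b⟩ := z
  simp only at h
  have hb1 : -1 ≤ b := by nlinarith [sq_nonneg (2 * a - b)]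
  have hb2 : b ≤ 1 := by nlinarith [sq_nonneg (2 * a - b)]
  have ha1 : -1 ≤ a := by nlinarith [sq_nonneg (2 * b - a)]
  have ha2 : a ≤ 1 := by nlinarith [sq_nonneg (2 * b - a)]
  interval_cases a <;> interval_cases b <;> simp_all

theorem cube_roots {R : Type*} [CommRing R] [IsDomain R] {z : R} (h : z ^ 3 = 1) (h1 : z ≠ 1) :
    z ^ 2 + z + 1 = 0 := by
  have : (z - 1) * (z ^ 2 + z + 1) = 0 := by linear_combination h
  rcases mul_eq_zero.1 this with h2 | h2
  · exact absurd (sub_eq_zero.1 h2) h1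
  · exact h2

section chars

variable {p : ℕ} [hp : Fact p.Prime]

theorem chi_cube {R : Type*} [CommRing R] {χ : MulChar (ZMod p) R} (h3 : χ ^ 3 = 1) {a : ZMod p}
    (ha : a ≠ 0) : χ a ^ 3 = 1 := by
  have h : (χ ^ 3) a = (1 : MulChar (ZMod p) R) a := by rw [h3]
  rw [MulChar.pow_apply' χ (by norm_num)] at h
  rw [h]
  exact MulChar.one_apply (isUnit_iff_ne_zero.2 ha)

theorem chi_ne {R : Type*} [CommRing R] {χ : MulChar (ZMod p) R} (h1 : χ ≠ 1) :
    ∃ a : ZMod p, a ≠ 0 ∧ χ a ≠ 1 := by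
  by_contra hcon
  push Not at hcon
  apply h1
  ext a
  rw [hcon _ a.ne_zero, MulChar.one_apply_coe]

/-- The value of a cubic character at an auxiliary prime. -/
theorem gauss_q {q m : ℕ} [hq : Fact q.Prime] (hpq : p ≠ q) (hqm : q * q = 3 * m + 1)
    {χ : MulChar (ZMod p) OE} (h3 : χ ^ 3 = 1) (h1 : χ ≠ 1) {w : AlgebraicClosure (ZMod q)}
    (hw : w ^ 2 + w + 1 = 0) :
    fO w hw (χ (q : ZMod p)) =
      ((p : AlgebraicClosure (ZMod q)) * fO w hw (jacobiSum χ χ)) ^ m := by
  let F := AlgebraicClosure (ZMod q)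
  have hFc : CharP F q := charP_of_injective_algebraMap (algebraMap (ZMod q) F).injective q
  have hpZ : ((p : ℕ) : ZMod q) ≠ 0 := by
    rw [Ne, ZMod.natCast_eq_zero_iff]
    intro hd
    exact hpq ((Nat.prime_dvd_prime_iff_eq hq.out hp.out).1 hd).symm
  have hpF : ((p : ℕ) : F) ≠ 0 := by
    rw [Ne, CharP.cast_eq_zero_iff F q]
    intro hd
    exact hpq ((Nat.prime_dvd_prime_iff_eq hq.out hp.out).1 hd).symm
  have hqF : ((q : ℕ) : ZMod p) ≠ 0 := by
    rw [Ne, ZMod.natCast_eq_zero_iff]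
    intro hd
    exact hpq ((Nat.prime_dvd_prime_iff_eq hp.out hq.out).1 hd)
  have hnz : NeZero ((p : ℕ) : ZMod q) := ⟨hpZ⟩
  obtain ⟨ζ, hζ⟩ := HasEnoughRootsOfUnity.exists_primitiveRoot F p
  obtain ⟨ψ, hψ⟩ : ∃ ψ : AddChar (ZMod p) F, ψ.IsPrimitive :=
    ⟨_, AddChar.zmodChar_primitive_of_primitive_root p hζ⟩
  set f : OE →+* F := fO w hw with hf
  set χF : MulChar (ZMod p) F := χ.ringHomComp f with hχF
  have h3F : χF ^ 3 = 1 := by
    rw [hχF, MulChar.ringHomComp_pow, h3, MulChar.ringHomComp_one]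
  have h1F : χF ≠ 1 := by
    intro he
    obtain ⟨a, ha0, ha1⟩ := chi_ne h1
    have e1 := cube_roots (chi_cube h3 ha0) ha1
    have e2 : χF a = (1 : MulChar (ZMod p) F) a := by rw [he]
    rw [MulChar.one_apply (isUnit_iff_ne_zero.2 ha0), hχF, MulChar.ringHomComp_apply] at e2
    have e3 := congrArg f e1
    rw [map_add, map_add, map_pow, map_one, map_zero, e2] at e3
    have e4 : ((3 : ℕ) : F) = 0 := by push_cast; linear_combination e3
    rw [CharP.cast_eq_zero_iff F q] at e4
    have e5 := (Nat.prime_dvd_prime_iff_eq hq.out Nat.prime_three).1 e4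
    rw [e5] at hqm
    omega
  have hord : orderOf χF = 3 := by
    have : Fact (Nat.Prime 3) := ⟨Nat.prime_three⟩
    exact orderOf_eq_prime h3F h1F
  obtain ⟨g, hg⟩ : ∃ g, g = gaussSum χF ψ := ⟨_, rfl⟩
  have hcard : (Fintype.card (ZMod p) : F) = p := by rw [ZMod.card]
  have hm1 : χF (-1) = 1 := by
    have e1 : χF (-1) ^ 3 = 1 := chi_cube h3F (neg_ne_zero.2 one_ne_zero)
    have e2 : χF (-1) ^ 2 = 1 := by
      rw [← map_pow, neg_one_sq, map_one]
    linear_combination e1 - χF (-1) * e2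
  have hg3 : g ^ 3 = p * jacobiSum χF χF := by
    have := gaussSum_pow_eq_prod_jacobiSum (χ := χF) (ψ := ψ) (by rw [hord]; norm_num) hψ
    rw [hord, hcard, hm1, ← hg, one_mul] at this
    rw [this]
    simp
  have hg0 : g ≠ 0 := by
    rw [hg]
    exact gaussSum_ne_zero_of_nontrivial (by rw [hcard]; exact hpF) h1F hψ
  have hfr : g ^ (q * q) = gaussSum χF (AddChar.mulShift ψ ((q * q : ℕ) : ZMod p)) := by
    rw [pow_mul, hg, gaussSum_frob q, gaussSum_frob q, ← pow_mul, ← pow_mul, ← AddChar.pow_mulShift]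
    congr 1
    rw [hqm, pow_succ, pow_mul, h3F, one_pow, one_mul]
  have hsh := gaussSum_mulShift χF ψ (Units.mk0 (((q * q : ℕ) : ZMod p)) (by
    push_cast; exact mul_ne_zero hqF hqF))
  rw [Units.val_mk0, ← hfr, ← hg] at hsh
  have hqq : χF ((q * q : ℕ) : ZMod p) = χF (q : ZMod p) ^ 2 := by
    push_cast; rw [map_mul]; ring
  rw [hqq, hqm, pow_succ g, pow_mul g] at hsh
  have hsh2 : χF (q : ZMod p) ^ 2 * (g ^ 3) ^ m = 1 := by
    apply mul_right_cancel₀ hg0
    rw [one_mul, mul_assoc]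
    exact hsh
  have hq3 : χF (q : ZMod p) ^ 3 = 1 := chi_cube h3F hqF
  have hfin : (g ^ 3) ^ m = χF (q : ZMod p) := by
    linear_combination χF (q : ZMod p) * hsh2 - (g ^ 3) ^ m * hq3
  rw [hg3, hχF, jacobiSum_ringHomComp, MulChar.ringHomComp_apply] at hfin
  exact hfin.symm

end chars

end Pool.Agent.H35.Q75
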