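import Pool.Agent.H35.Q75.R1

/-!
The cubic residue character of `10` and the residue class modulo `5` of the prime `x + y √-3`.
-/

set_option autoImplicit false
set_option linter.unusedSectionVars false
set_option linter.unusedSimpArgs false
set_option linter.unusedVariables false

namespace Pool.Agent.H35.Q75

variable {p : ℕ} [hp : Fact p.Prime]

theorem om_cube : (⟨0, 1⟩ : OE) ^ 3 = 1 := by decide

theorem om_ne : (⟨0, 1⟩ : OE) ≠ 1 := by decide

theorem exists_chi (h3 : p % 3 = 1) {w : ZMod p} (hw : w ^ 2 + w + 1 = 0) :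
    ∃ χ : MulChar (ZMod p) OE, χ ^ 3 = 1 ∧ χ ≠ 1 ∧ ∀ a, fO w hw (χ a) = a ^ ((p - 1) / 3) := by
  have hpp := hp.out
  have hp3 : Fact (Nat.Prime 3) := ⟨Nat.prime_three⟩
  obtain ⟨m, hm⟩ : ∃ m, p - 1 = 3 * m := ⟨(p - 1) / 3, by omega⟩
  have hm' : (p - 1) / 3 = m := by omega
  have hm0 : m ≠ 0 := by
    rintro rfl
    have := hpp.two_le
    omega
  have hζ : IsPrimitiveRoot (⟨0, 1⟩ : OE) 3 := by
    have := orderOf_eq_prime om_cube om_ne
    have h := IsPrimitiveRoot.orderOf (⟨0, 1⟩ : OE)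
    rwa [this] at h
  obtain ⟨χ0, hχ0⟩ := MulChar.exists_mulChar_orderOf (ZMod p) (n := 3) (by
    rw [ZMod.card, hm]; exact dvd_mul_right _ _) hζ
  have c3 : χ0 ^ 3 = 1 := by rw [← hχ0, pow_orderOf_eq_one]
  have c1 : χ0 ≠ 1 := by
    intro h
    rw [h, orderOf_one] at hχ0
    norm_num at hχ0
  obtain ⟨g, hg⟩ := IsCyclic.exists_generator (α := (ZMod p)ˣ)
  have hgm : ∀ a : ZMod p, a ≠ 0 → ∃ n : ℕ, (g : ZMod p) ^ n = a := by
    intro a ha
    have h := hg (Units.mk0 a ha)
    rw [← mem_powers_iff_mem_zpowers] at h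
    obtain ⟨n, hn⟩ := h
    refine ⟨n, ?_⟩
    have := congrArg (fun u : (ZMod p)ˣ => (u : ZMod p)) hn
    simp only [Units.val_pow_eq_pow_val, Units.val_mk0] at this
    exact this
  -- the values at the generator
  have hθ3 : ((g : ZMod p) ^ m) ^ 3 = 1 := by
    rw [← pow_mul, mul_comm, ← hm]
    exact ZMod.pow_card_sub_one_eq_one g.ne_zero
  have hθ1 : (g : ZMod p) ^ m ≠ 1 := by
    intro h
    have h2 : orderOf g = p - 1 := by
      rw [orderOf_eq_card_of_forall_mem_zpowers hg, Nat.card_eq_fintype_card, ZMod.card_units]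
    have h3 : g ^ m = 1 := by
      apply Units.ext
      rw [Units.val_pow_eq_pow_val, h, Units.val_one]
    have h4 := orderOf_dvd_of_pow_eq_one h3
    rw [h2, hm] at h4
    have := Nat.le_of_dvd (Nat.pos_of_ne_zero hm0) h4
    omega
  have hθ := cube_roots hθ3 hθ1
  have hv1 : χ0 (g : ZMod p) ≠ 1 := by
    intro h
    apply c1
    rw [MulChar.eq_iff hg, h, MulChar.one_apply_coe]
  have hv := cube_roots (chi_cube c3 g.ne_zero) hv1
  have hv' := congrArg (fO w hw) hv
  rw [map_add, map_add, map_pow, map_one, map_zero] at hv'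
  obtain ⟨v, hvd⟩ : ∃ v, v = fO w hw (χ0 (g : ZMod p)) := ⟨_, rfl⟩
  rw [← hvd] at hv'
  have hcase : ((g : ZMod p) ^ m - v) * ((g : ZMod p) ^ m - v ^ 2) = 0 := by
    linear_combination hθ + (v - 1 - (g : ZMod p) ^ m) * hv'
  have fin : ∀ χ : MulChar (ZMod p) OE, χ ^ 3 = 1 → χ ≠ 1 → fO w hw (χ (g : ZMod p)) = (g : ZMod p) ^ m →
      ∃ χ : MulChar (ZMod p) OE, χ ^ 3 = 1 ∧ χ ≠ 1 ∧ ∀ a, fO w hw (χ a) = a ^ ((p - 1) / 3) := by
    intro χ k3 k1 kg
    refine ⟨χ, k3, k1, ?_⟩
    intro a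
    rw [hm']
    by_cases ha : a = 0
    · rw [ha, MulChar.map_zero, map_zero, zero_pow hm0]
    · obtain ⟨n, hn⟩ := hgm a ha
      rw [← hn, map_pow, map_pow, kg, ← pow_mul, ← pow_mul, mul_comm]
  rcases mul_eq_zero.1 hcase with h | h
  · exact fin χ0 c3 c1 (by rw [← hvd]; exact (sub_eq_zero.1 h).symm)
  · refine fin (χ0 ^ 2) ?_ ?_ ?_
    · rw [← pow_mul, mul_comm, pow_mul, c3, one_pow]
    · intro h2
      apply c1
      have : χ0 ^ 3 = χ0 ^ 2 * χ0 := by rw [pow_succ]
      rw [c3, h2, one_mul] at this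
      exact this.symm
    · rw [MulChar.pow_apply' χ0 (by norm_num), map_pow, ← hvd]
      exact (sub_eq_zero.1 h).symm

theorem jacobi_norm {χ : MulChar (ZMod p) OE} (h3 : χ ^ 3 = 1) (h1 : χ ≠ 1) :
    (jacobiSum χ χ).norm = p := by
  have hpp := hp.out
  let F' := FractionRing OE
  have hinj : Function.Injective (algebraMap OE F') := IsFractionRing.injective OE F'
  set χ' := χ.ringHomComp (algebraMap OE F') with hχ'
  have hne : ringChar F' ≠ ringChar (ZMod p) := by
    have hc : CharZero F' := charZero_of_injective_algebraMap hinj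
    rw [ringChar.eq_zero, ZMod.ringChar_zmod_n]
    exact hpp.ne_zero.symm
  have k1 : χ' ≠ 1 := (MulChar.ringHomComp_ne_one_iff hinj).mpr h1
  have k2 : χ' * χ' ≠ 1 := by
    rw [hχ', ← MulChar.ringHomComp_mul]
    refine (MulChar.ringHomComp_ne_one_iff hinj).mpr ?_
    intro h
    apply h1
    have : χ ^ 3 = χ * χ * χ := by rw [pow_succ, pow_two]
    rw [h3, h, one_mul] at this
    exact this.symm
  have key := jacobiSum_mul_jacobiSum_inv hne k1 k1 k2
  rw [hχ', MulChar.ringHomComp_inv, jacobiSum_ringHomComp, jacobiSum_ringHomComp, ← map_mul,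
    ZMod.card, ← map_natCast (algebraMap OE F')] at key
  have key2 := hinj key
  have hst : ∀ a : ZMod p, χ⁻¹ a = star (χ a) := by
    intro a
    by_cases ha : a = 0
    · rw [ha, MulChar.map_zero, MulChar.map_zero, star_zero]
    · have e1 := chi_cube h3 ha
      have e2 : (χ a).norm = 1 := by
        have := congrArg QuadraticAlgebra.norm e1
        rw [map_pow, QuadraticAlgebra.norm_one] at this
        have h5 : 0 ≤ (χ a).norm := by
          rw [OE_norm]; nlinarith [sq_nonneg (2 * (χ a).re - (χ a).im), sq_nonneg (χ a).im]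
        have h6 : (χ a).norm ≤ 1 := by
          by_contra hcon
          push Not at hcon
          nlinarith [sq_nonneg (χ a).norm]
        have h7 : (χ a).norm ≠ 0 := by
          intro h0
          rw [h0] at this
          norm_num at this
        omega
      have e3 : χ a * star (χ a) = 1 := by
        rw [← QuadraticAlgebra.algebraMap_norm_eq_mul_star, e2, map_one]
      have e4 : χ a * χ⁻¹ a = 1 := by
        rw [MulChar.inv_apply', ← map_mul, mul_inv_cancel₀ ha, map_one]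
      have hne : χ a ≠ 0 := by
        intro h0
        rw [h0, zero_mul] at e4
        exact zero_ne_one e4
      apply mul_left_cancel₀ hne
      rw [e3, e4]
  have hJ : jacobiSum χ⁻¹ χ⁻¹ = star (jacobiSum χ χ) := by
    unfold jacobiSum
    rw [star_sum]
    apply Finset.sum_congr rfl
    intro a _
    rw [star_mul, hst, hst, mul_comm]
  rw [hJ, ← QuadraticAlgebra.algebraMap_norm_eq_mul_star] at key2
  have e : ((p : ℕ) : OE) = algebraMap ℤ OE (p : ℤ) := by rw [map_natCast]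
  rw [e] at key2
  exact QuadraticAlgebra.algebraMap_injective key2

theorem jacobi_zero (h3 : p % 3 = 1) {w : ZMod p} (hw : w ^ 2 + w + 1 = 0)
    {χ : MulChar (ZMod p) OE} (hχ : ∀ a, fO w hw (χ a) = a ^ ((p - 1) / 3)) :
    fO w hw (jacobiSum χ χ) = 0 := by
  have hpp := hp.out
  obtain ⟨m, hm⟩ : ∃ m, p - 1 = 3 * m := ⟨(p - 1) / 3, by omega⟩
  have hm' : (p - 1) / 3 = m := by omega
  have hm0 : m ≠ 0 := by
    rintro rfl
    have := hpp.two_le
    omega
  unfold jacobiSum
  rw [map_sum]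
  have e1 : ∀ x : ZMod p, fO w hw (χ x * χ (1 - x)) =
      ∑ k ∈ Finset.range (m + 1), ((-1) ^ (m - k) * (m.choose k : ZMod p)) * x ^ (k + 2 * (m - k)) := by
    intro x
    rw [map_mul, hχ, hχ, hm', ← mul_pow]
    have : x * (1 - x) = x + (-1) * x ^ 2 := by ring
    rw [this, add_pow]
    apply Finset.sum_congr rfl
    intro k _
    rw [mul_pow, ← pow_mul, pow_add]
    ring
  rw [Finset.sum_congr rfl (fun x _ => e1 x), Finset.sum_comm]
  apply Finset.sum_eq_zero
  intro k hk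
  rw [Finset.mem_range] at hk
  rw [← Finset.mul_sum, FiniteField.sum_pow_lt_card_sub_one, mul_zero]
  rw [ZMod.card]
  omega

theorem eps_of {w : ZMod p} (hw : w ^ 2 + w + 1 = 0) {x y : ℤ} (hxy : (p : ℤ) = x ^ 2 + 3 * y ^ 2)
    (hx : (x : ZMod p) + y * (2 * w + 1) = 0) {J : OE} (hJ : J.norm = p) (hJ0 : fO w hw J = 0) :
    ∃ ε : OE, ε.norm = 1 ∧ J = ε * ⟨x + y, 2 * y⟩ := by
  obtain ⟨a, b⟩ := J
  rw [fO_apply] at hJ0
  simp only at hJ0
  have hpZ : (p : ℤ) ≠ 0 := by exact_mod_cast hp.out.ne_zero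
  obtain ⟨e, he⟩ : (p : ℤ) ∣ a * (x - y) + 2 * b * y := by
    rw [← ZMod.intCast_zmod_eq_zero_iff_dvd]
    push_cast
    linear_combination ((x : ZMod p) - y) * hJ0 - b * w * hx + 2 * b * y * hw
  obtain ⟨f, hf⟩ : (p : ℤ) ∣ -2 * a * y + b * (x + y) := by
    rw [← ZMod.intCast_zmod_eq_zero_iff_dvd]
    push_cast
    linear_combination (-2 * (y : ZMod p)) * hJ0 + b * hx
  have h1 : (p : OE) * ⟨a, b⟩ = (p : OE) * (⟨e, f⟩ * ⟨x + y, 2 * y⟩) := by
    ext
    · simp only [QuadraticAlgebra.re_mul, QuadraticAlgebra.im_mul, QuadraticAlgebra.re_natCast,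
        QuadraticAlgebra.im_natCast]
      linear_combination (a) * hxy + (x + y) * he - 2 * y * hf
    · simp only [QuadraticAlgebra.re_mul, QuadraticAlgebra.im_mul, QuadraticAlgebra.re_natCast,
        QuadraticAlgebra.im_natCast]
      linear_combination (b) * hxy + (2 * y) * he + (x + y - 2 * y) * hf
  have hpO : (p : OE) ≠ 0 := by exact_mod_cast hp.out.ne_zero
  have h2 := mul_left_cancel₀ hpO h1
  refine ⟨⟨e, f⟩, ?_, h2⟩
  have h3 := congrArg QuadraticAlgebra.norm h2
  rw [map_mul, hJ] at h3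
  have h4 : (⟨x + y, 2 * y⟩ : OE).norm = p := by
    rw [OE_norm]
    simp only
    linear_combination -hxy
  rw [h4] at h3
  apply mul_right_cancel₀ hpZ
  rw [← h3, one_mul]

end Pool.Agent.H35.Q75
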