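import Pool.Agent.H35.Q75.R2

/-!
The cubic residue character of `10`: conclusion.
-/

set_option autoImplicit false
set_option linter.unusedSectionVars false
set_option linter.unusedSimpArgs false
set_option linter.unusedVariables false

namespace Pool.Agent.H35.Q75

open Polynomial

/-- Divisibility from vanishing in characteristic `q`. -/
theorem ker_q {q : ℕ} [hq : Fact q.Prime] (hd : ∀ a b : ZMod q, a ^ 2 - a * b + b ^ 2 = 0 → a = 0 ∧ b = 0)
    {K : Type*} [Field K] [hK : CharP K q] {w : K} (hw : w ^ 2 + w + 1 = 0) {z : OE}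
    (h : fO w hw z = 0) : (q : ℤ) ∣ z.re ∧ (q : ℤ) ∣ z.im := by
  rw [fO_apply] at h
  have h1 : ((z.re ^ 2 - z.re * z.im + z.im ^ 2 : ℤ) : K) = 0 := by
    push_cast
    linear_combination ((z.re : K) + z.im * (-1 - w)) * h + (z.im : K) ^ 2 * hw
  rw [CharP.intCast_eq_zero_iff K q, ← ZMod.intCast_zmod_eq_zero_iff_dvd] at h1
  push_cast at h1
  obtain ⟨h2, h3⟩ := hd _ _ h1
  exact ⟨(ZMod.intCast_zmod_eq_zero_iff_dvd _ _).1 h2, (ZMod.intCast_zmod_eq_zero_iff_dvd _ _).1 h3⟩

theorem exists_omega (F : Type*) [Field F] [IsAlgClosed F] : ∃ w : F, w ^ 2 + w + 1 = 0 := by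
  obtain ⟨w, hw⟩ := IsAlgClosed.exists_root (X ^ 2 + X + 1 : F[X]) (by
    have : (X ^ 2 + X + 1 : F[X]).natDegree = 2 := by compute_degree!
    rw [degree_eq_natDegree (by
      intro h; rw [h, natDegree_zero] at this; norm_num at this), this]
    norm_num)
  refine ⟨w, ?_⟩
  simpa using hw

/-- The reduction modulo `5`. -/
def g5 : OE →+* QuadraticAlgebra (ZMod 5) (-1) (-1) where
  toFun z := ⟨(z.re : ZMod 5), (z.im : ZMod 5)⟩
  map_one' := by
    ext
    · simp [QuadraticAlgebra.re_one]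
    · simp [QuadraticAlgebra.im_one]
  map_mul' z w := by
    ext
    · simp only [QuadraticAlgebra.re_mul]
      push_cast
      ring
    · simp only [QuadraticAlgebra.im_mul]
      push_cast
      ring
  map_zero' := by
    ext <;> simp
  map_add' z w := by
    ext <;> simp

theorem fin5a : ∀ x y : ZMod 5, (⟨x + y, 2 * y⟩ : QuadraticAlgebra (ZMod 5) (-1) (-1)) ^ 8 = 1 →
    x * y = 0 := by decide

theorem fin5b : ∀ x y : ZMod 5, (⟨x + y, 2 * y⟩ : QuadraticAlgebra (ZMod 5) (-1) (-1)) ^ 8 = ⟨0, 1⟩ →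
    (x - y) * (x + 3 * y) = 0 := by decide

theorem dec2 : ∀ a b : ZMod 2, a ^ 2 - a * b + b ^ 2 = 0 → a = 0 ∧ b = 0 := by decide

theorem dec5 : ∀ a b : ZMod 5, a ^ 2 - a * b + b ^ 2 = 0 → a = 0 ∧ b = 0 := by decide

theorem sq_of_two {χ2 ε : OE} (h1 : χ2 ^ 3 = 1) (hn : χ2.norm = 1) (hε : ε.norm = 1)
    (h : (2 : ℤ) ∣ (χ2 - ε).re ∧ (2 : ℤ) ∣ (χ2 - ε).im) : ε ^ 8 * χ2 = 1 := by
  rcases OE_units hn with rfl | rfl | rfl | rfl | rfl | rfl <;>
    rcases OE_units hε with rfl | rfl | rfl | rfl | rfl | rfl <;>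
    revert h1 h <;> decide

variable {p : ℕ} [hp : Fact p.Prime]

theorem chi_norm {χ : MulChar (ZMod p) OE} (h3 : χ ^ 3 = 1) {a : ZMod p} (ha : a ≠ 0) :
    (χ a).norm = 1 := by
  have e1 := chi_cube h3 ha
  have := congrArg QuadraticAlgebra.norm e1
  rw [map_pow, QuadraticAlgebra.norm_one] at this
  have h5 : 0 ≤ (χ a).norm := by
    rw [OE_norm]; nlinarith [sq_nonneg (2 * (χ a).re - (χ a).im), sq_nonneg (χ a).im]
  have h6 : (χ a).norm ≤ 1 := by
    by_contra hcon
    push Not at hcon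
    nlinarith [sq_nonneg (χ a).norm]
  have h7 : (χ a).norm ≠ 0 := by
    intro h0
    rw [h0] at this
    norm_num at this
  omega

theorem cubic10 (hp5 : 5 < p) (h3 : p % 3 = 1) {x y : ℤ} (hxy : (p : ℤ) = x ^ 2 + 3 * y ^ 2)
    {w : ZMod p} (hw : w ^ 2 + w + 1 = 0) (hx : (x : ZMod p) + y * (2 * w + 1) = 0) :
    ((10 : ZMod p) ^ ((p - 1) / 3) = 1 → (5 : ℤ) ∣ x * y) ∧
      ((10 : ZMod p) ^ ((p - 1) / 3) = w → (5 : ℤ) ∣ (x - y) * (x + 3 * y)) := by
  have hpp := hp.out
  have hq2 : Fact (Nat.Prime 2) := ⟨Nat.prime_two⟩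
  have hq5 : Fact (Nat.Prime 5) := ⟨Nat.prime_five⟩
  obtain ⟨χ, c3, c1, hχ⟩ := exists_chi h3 hw
  obtain ⟨ε, hε, hJ⟩ := eps_of hw hxy hx (jacobi_norm c3 c1) (jacobi_zero h3 hw hχ)
  have n2 : (2 : ZMod p) ≠ 0 := by
    have : ((2 : ℕ) : ZMod p) ≠ 0 := by
      rw [Ne, ZMod.natCast_eq_zero_iff]
      intro hd
      have := Nat.le_of_dvd (by norm_num) hd
      omega
    exact_mod_cast this
  have n5 : (5 : ZMod p) ≠ 0 := by
    have : ((5 : ℕ) : ZMod p) ≠ 0 := by
      rw [Ne, ZMod.natCast_eq_zero_iff]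
      intro hd
      have := Nat.le_of_dvd (by norm_num) hd
      omega
    exact_mod_cast this
  -- the prime `2`
  have hfc2 : CharP (AlgebraicClosure (ZMod 2)) 2 := charP_of_injective_algebraMap
    (algebraMap (ZMod 2) (AlgebraicClosure (ZMod 2))).injective 2
  have hfc5 : CharP (AlgebraicClosure (ZMod 5)) 5 := charP_of_injective_algebraMap
    (algebraMap (ZMod 5) (AlgebraicClosure (ZMod 5))).injective 5
  obtain ⟨w2, hw2⟩ := exists_omega (AlgebraicClosure (ZMod 2))
  obtain ⟨w5, hw5⟩ := exists_omega (AlgebraicClosure (ZMod 5))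
  have g2 := gauss_q (p := p) (q := 2) (m := 1) (by omega) (by norm_num) c3 c1 hw2
  have g5' := gauss_q (p := p) (q := 5) (m := 8) (by omega) (by norm_num) c3 c1 hw5
  rw [pow_one, hJ, map_mul] at g2
  rw [hJ, map_mul] at g5'
  have hodd : p % 2 = 1 := by
    rcases hpp.eq_two_or_odd with h | h
    · omega
    · exact h
  have p2 : (p : AlgebraicClosure (ZMod 2)) = 1 := by
    have h : ((p : ℕ) : AlgebraicClosure (ZMod 2)) = ((1 : ℕ) : AlgebraicClosure (ZMod 2)) := by
      rw [CharP.natCast_eq_natCast (R := AlgebraicClosure (ZMod 2)) 2]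
      unfold Nat.ModEq; omega
    simpa using h
  have pi2 : fO w2 hw2 ⟨x + y, 2 * y⟩ = 1 := by
    rw [fO_apply]
    simp only
    have e1 : ((2 * y : ℤ) : AlgebraicClosure (ZMod 2)) = 0 := by
      rw [CharP.intCast_eq_zero_iff (AlgebraicClosure (ZMod 2)) 2]
      exact ⟨y, by push_cast; ring⟩
    have e2 : ((x + y - 1 : ℤ) : AlgebraicClosure (ZMod 2)) = 0 := by
      rw [CharP.intCast_eq_zero_iff (AlgebraicClosure (ZMod 2)) 2]
      have h4 : (x ^ 2 + 3 * y ^ 2) % 2 = 1 := by rw [← hxy]; omega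
      have h5 : (x + y) % 2 = 1 := by
        rcases Int.emod_two_eq_zero_or_one x with hx | hx <;>
          rcases Int.emod_two_eq_zero_or_one y with hy | hy <;>
          simp [pow_two, Int.add_emod, Int.mul_emod, hx, hy] at h4 ⊢
      push_cast
      omega
    rw [e1]
    push_cast at e2 ⊢
    linear_combination e2
  rw [p2, pi2, mul_one, one_mul] at g2
  have k2 : fO w2 hw2 (χ ((2 : ℕ) : ZMod p) - ε) = 0 := by rw [map_sub, g2, sub_self]
  have d2 := ker_q (q := 2) dec2 hw2 k2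
  have hχ2 := chi_cube c3 (a := ((2 : ℕ) : ZMod p)) (by exact_mod_cast n2)
  have hχ5 := chi_cube c3 (a := ((5 : ℕ) : ZMod p)) (by exact_mod_cast n5)
  have hs := sq_of_two hχ2 (chi_norm c3 (by exact_mod_cast n2)) hε (by exact_mod_cast d2)
  -- the prime `5`
  have p5 : (p : AlgebraicClosure (ZMod 5)) ^ 8 = 1 := by
    have h1 : ((p : ℕ) : ZMod 5) ≠ 0 := by
      rw [Ne, ZMod.natCast_eq_zero_iff]
      intro hd
      have := (Nat.prime_dvd_prime_iff_eq Nat.prime_five hpp).1 hd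
      omega
    have h2 := ZMod.pow_card_sub_one_eq_one h1
    have h3 := congrArg (algebraMap (ZMod 5) (AlgebraicClosure (ZMod 5))) h2
    rw [map_pow, map_natCast, map_one] at h3
    have h4 : (p : AlgebraicClosure (ZMod 5)) ^ 8 = ((p : AlgebraicClosure (ZMod 5)) ^ (5 - 1)) ^ 2 := by
      rw [← pow_mul]
    rw [h4, h3, one_pow]
  have k5 : fO w5 hw5 (χ 10 - (⟨x + y, 2 * y⟩ : OE) ^ 8) = 0 := by
    have e10 : (10 : ZMod p) = ((2 : ℕ) : ZMod p) * ((5 : ℕ) : ZMod p) := by norm_num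
    have e1 := congrArg (fO w5 hw5) hs
    rw [map_mul, map_pow, map_one] at e1
    rw [map_sub, map_pow, e10, map_mul χ, map_mul, g5']
    rw [mul_pow, mul_pow, p5]
    linear_combination (fO w5 hw5 ⟨x + y, 2 * y⟩) ^ 8 * e1
  have d5 := ker_q (q := 5) dec5 hw5 k5
  have q5 : g5 (χ 10 - (⟨x + y, 2 * y⟩ : OE) ^ 8) = 0 := by
    show (⟨_, _⟩ : QuadraticAlgebra (ZMod 5) (-1) (-1)) = 0
    rw [(ZMod.intCast_zmod_eq_zero_iff_dvd _ 5).2 d5.1, (ZMod.intCast_zmod_eq_zero_iff_dvd _ 5).2 d5.2]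
    rfl
  have q5' : (⟨(x : ZMod 5) + y, 2 * y⟩ : QuadraticAlgebra (ZMod 5) (-1) (-1)) ^ 8 = g5 (χ 10) := by
    have e : (⟨(x : ZMod 5) + y, 2 * y⟩ : QuadraticAlgebra (ZMod 5) (-1) (-1)) =
        g5 (⟨x + y, 2 * y⟩ : OE) := by
      show _ = (⟨((x + y : ℤ) : ZMod 5), ((2 * y : ℤ) : ZMod 5)⟩ : QuadraticAlgebra (ZMod 5) (-1) (-1))
      push_cast
      rfl
    rw [e, ← map_pow]
    rw [map_sub] at q5
    exact (sub_eq_zero.1 q5).symm
  -- the value of the character
  have n10 : (10 : ZMod p) ≠ 0 := by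
    have : (10 : ZMod p) = 2 * 5 := by norm_num
    rw [this]
    exact mul_ne_zero n2 n5
  have hχ10 := hχ 10
  have hc10 := chi_cube c3 n10
  have hn10 := chi_norm c3 n10
  have w1 : w ≠ 1 := by
    rintro rfl
    have h0 : ((3 : ℕ) : ZMod p) = 0 := by push_cast; linear_combination hw
    rw [ZMod.natCast_eq_zero_iff] at h0
    have := Nat.le_of_dvd (by norm_num) h0
    omega
  have w0 : w ≠ 0 := by
    rintro rfl
    norm_num at hw
  have ww : -1 - w ≠ 1 := by
    intro h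
    have h' : w = -2 := by linear_combination -h
    rw [h'] at hw
    have h0 : ((3 : ℕ) : ZMod p) = 0 := by push_cast; linear_combination hw
    rw [ZMod.natCast_eq_zero_iff] at h0
    have := Nat.le_of_dvd (by norm_num) h0
    omega
  have ww2 : -1 - w ≠ w := by
    intro h
    have h0 : ((3 : ℕ) : ZMod p) = 0 := by
      push_cast
      linear_combination 4 * hw + (2 * w + 1) * h
    rw [ZMod.natCast_eq_zero_iff] at h0
    have := Nat.le_of_dvd (by norm_num) h0
    omega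
  have hcases : χ 10 = ⟨1, 0⟩ ∨ χ 10 = ⟨0, 1⟩ ∨ χ 10 = ⟨-1, -1⟩ := by
    rcases OE_units hn10 with h | h | h | h | h | h
    · exact Or.inl h
    · rw [h] at hc10; exact absurd hc10 (by decide)
    · exact Or.inr (Or.inl h)
    · rw [h] at hc10; exact absurd hc10 (by decide)
    · rw [h] at hc10; exact absurd hc10 (by decide)
    · exact Or.inr (Or.inr h)
  constructor
  · intro h
    rw [h] at hχ10
    have h1 : χ 10 = ⟨1, 0⟩ := by
      rcases hcases with h | h | h
      · exact h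
      · rw [h, fO_apply] at hχ10
        exfalso; apply w1
        push_cast at hχ10
        linear_combination hχ10
      · rw [h, fO_apply] at hχ10
        exfalso; apply ww
        push_cast at hχ10
        linear_combination hχ10
    rw [h1] at q5'
    have h2 := fin5a x y (by rw [q5']; decide)
    have h3 : ((x * y : ℤ) : ZMod 5) = 0 := by push_cast; exact h2
    exact_mod_cast (ZMod.intCast_zmod_eq_zero_iff_dvd _ 5).1 h3
  · intro h
    rw [h] at hχ10
    have h1 : χ 10 = ⟨0, 1⟩ := by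
      rcases hcases with h | h | h
      · rw [h, fO_apply] at hχ10
        exfalso; apply w1
        push_cast at hχ10
        linear_combination -hχ10
      · exact h
      · rw [h, fO_apply] at hχ10
        exfalso; apply ww2
        push_cast at hχ10
        linear_combination hχ10
    rw [h1] at q5'
    have h2 := fin5b x y (by rw [q5']; decide)
    have h3 : (((x - y) * (x + 3 * y) : ℤ) : ZMod 5) = 0 := by push_cast; exact h2
    exact_mod_cast (ZMod.intCast_zmod_eq_zero_iff_dvd _ 5).1 h3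

end Pool.Agent.H35.Q75
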